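import Pool.Agent.R701.FreeProd

/-!
# Finite subgroups of free products
-/

set_option autoImplicit false

namespace Pool.Agent.K7.H29.GP

open Monoid Pool.Agent.R701.FreeProd

variable {ι : Type} {M : ι → Type} [∀ i, Group (M i)]

/-- powers of cyclically reduced elements -/
theorem len_pow {z : CoprodI M} (h : Compat z z) (hz : z ≠ 1) (n : ℕ) :
    len (z ^ (n + 1)) = (n + 1) * len z ∧ fst (z ^ (n + 1)) = fst z := by
  induction n with
  | zero => simp
  | succ n ih =>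
    have h1 : Compat z (z ^ (n + 1)) := by
      intro i hi
      rw [ih.2]
      exact h i hi
    rw [pow_succ', len_mul h1, ih.1, fst_mul h1 hz]
    exact ⟨by ring, rfl⟩

/-- elements of finite order are conjugate into a factor -/
theorem ell_of_fin {z : CoprodI M} (hz : z ≠ 1) (hfin : IsOfFinOrder z) : Ell z := by
  classical
  have hex : ∃ n, ∃ c : CoprodI M, len (c⁻¹ * z * c) = n := ⟨_, 1, rfl⟩
  obtain ⟨c, hc⟩ := Nat.find_spec hex
  have hmin : ∀ c' : CoprodI M, len (c⁻¹ * z * c) ≤ len (c'⁻¹ * z * c') := by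
    intro c'
    rw [hc]
    exact Nat.find_min' hex ⟨c', rfl⟩
  obtain ⟨y, hy⟩ : ∃ y, y = c⁻¹ * z * c := ⟨_, rfl⟩
  have hzy : z = c * y * c⁻¹ := by
    rw [hy]
    group
  have hmin' : ∀ d : CoprodI M, len y ≤ len (d * y * d⁻¹) := by
    intro d
    have h1 := hmin (c * d⁻¹)
    have h2 : (c * d⁻¹)⁻¹ * z * (c * d⁻¹) = d * y * d⁻¹ := by
      rw [hy]
      group
    rwa [h2, ← hy] at h1
  have hy1 : y ≠ 1 := by
    intro h
    apply hz
    rw [hzy, h]
    group
  have hyf : IsOfFinOrder y := by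
    obtain ⟨n, hn, h1⟩ := isOfFinOrder_iff_pow_eq_one.1 hfin
    refine isOfFinOrder_iff_pow_eq_one.2 ⟨n, hn, ?_⟩
    rw [hy]
    have h2 : (c⁻¹ * z * c) ^ n = c⁻¹ * z ^ n * c := by
      have h3 := conj_pow (i := n) (a := c⁻¹) (b := z)
      rw [inv_inv] at h3
      exact h3
    rw [h2, h1]
    group
  have hnc : ¬ Compat y y := by
    intro h
    obtain ⟨n, hn, h1⟩ := isOfFinOrder_iff_pow_eq_one.1 hyf
    obtain ⟨m, rfl⟩ := Nat.exists_eq_succ_of_ne_zero hn.ne'
    have h2 := (len_pow h hy1 m).1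
    rw [h1, len_one] at h2
    have h3 : len y = 0 := by
      rcases Nat.mul_eq_zero.1 h2.symm with h4 | h4
      · omega
      · exact h4
    exact hy1 (eq_one_of_len h3)
  simp only [Compat, not_forall, not_not] at hnc
  obtain ⟨i, hi1, hi2⟩ := hnc
  obtain ⟨k, a, hk, hkl⟩ := strip y i
  have ha : a ≠ 1 := by
    rintro rfl
    rw [map_one, mul_one] at hk
    exact hkl (hk ▸ hi1)
  have hck : Compat k (CoprodI.of a) := by
    intro j hj h
    rw [fst_of a ha] at h
    rw [hj, ← h] at hkl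
    exact hkl rfl
  have hly : len y = len k + 1 := by
    rw [hk, len_mul hck, len_of a ha]
  by_cases hk1 : k = 1
  · refine ⟨i, a, c, ha, ?_⟩
    rw [hzy, hk, hk1, one_mul]
  exfalso
  have hfk : fst k = some i := by
    rw [← hi2, hk, fst_mul hck hk1]
  -- strip the first letter of `k`
  obtain ⟨k', b, hkb, hkl'⟩ := strip k⁻¹ i
  have hkb' : k = CoprodI.of b⁻¹ * k'⁻¹ := by
    rw [← inv_inv k, hkb, mul_inv_rev, map_inv]
  have hb : b ≠ 1 := by
    rintro rfl
    rw [map_one, mul_one] at hkb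
    apply hkl'
    rw [← hkb, lst_inv, hfk]
  have hcb : Compat (CoprodI.of b⁻¹) k'⁻¹ := by
    intro j hj h
    rw [lst_of _ (inv_ne_one.2 hb)] at hj
    rw [fst_inv, ← hj] at h
    exact hkl' h
  have hlk : len k = 1 + len k'⁻¹ := by
    rw [hkb', len_mul hcb, len_of _ (inv_ne_one.2 hb)]
  have h1 := hmin' (CoprodI.of a)
  have h2 : CoprodI.of a * y * (CoprodI.of a)⁻¹ = CoprodI.of (a * b⁻¹) * k'⁻¹ := by
    rw [hk, hkb', map_mul]
    group
  rw [h2] at h1
  have h3 : len (CoprodI.of (a * b⁻¹) * k'⁻¹) ≤ 1 + len k'⁻¹ := by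
    by_cases hab : a * b⁻¹ = 1
    · rw [hab, map_one, one_mul]
      omega
    · have h4 : Compat (CoprodI.of (a * b⁻¹)) k'⁻¹ := by
        intro j hj h
        rw [lst_of _ hab] at hj
        rw [fst_inv, ← hj] at h
        exact hkl' h
      rw [len_mul h4, len_of _ hab]
  omega

/-- **finite subgroups are conjugate into a factor** -/
theorem fin_sub (B : Subgroup (CoprodI M)) (hB : (B : Set (CoprodI M)).Finite) (hne : B ≠ ⊥) :
    ∃ (i : ι) (g : CoprodI M), ∀ b ∈ B, ∃ m : M i, b = g * CoprodI.of m * g⁻¹ := by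
  have hS : ((B : Set (CoprodI M)) \ {1}).Nonempty := by
    obtain ⟨x, hx⟩ := Subgroup.ne_bot_iff_exists_ne_one.1 hne
    exact ⟨x, x.2, fun h => hx (Subtype.ext h)⟩
  have hfinB : Finite B := hB.to_subtype
  rcases key ((B : Set (CoprodI M)) \ {1}) (hB.subset Set.sdiff_subset) (by
    rintro s ⟨hs, hs1⟩
    refine ell_of_fin hs1 ?_
    have h1 : IsOfFinOrder (⟨s, hs⟩ : B) := isOfFinOrder_of_finite _
    exact (Submonoid.isOfFinOrder_coe (H := B.toSubmonoid) (x := ⟨s, hs⟩)).2 h1) hS with h | h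
  · obtain ⟨i, g, h⟩ := h
    refine ⟨i, g, fun b hb => ?_⟩
    by_cases hb1 : b = 1
    · exact ⟨1, by rw [hb1, map_one]; group⟩
    · exact h b ⟨hb, hb1⟩
  · exfalso
    obtain ⟨p, ⟨hp, hp1⟩, q, ⟨hq, hq1⟩, h, -⟩ := h
    apply h
    refine ⟨B.mul_mem (B.mul_mem hq hp) (B.inv_mem hq), ?_⟩
    intro h1
    apply hp1
    have h2 : p = q⁻¹ * (q * p * q⁻¹) * q := by group
    have h3 : q * p * q⁻¹ = 1 := h1
    show p = 1
    rw [h2, h3]
    group

end Pool.Agent.K7.H29.GP
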