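import Pool.Agent.K7.H29.GP.Main
import Pool.Agent.K7.H29.GP.Tors

/-!
# Graph products of finitely many finite groups as kernels
-/

set_option autoImplicit false

namespace Pool.Agent.K7.H29.GP

open Pool.Agent.Y110.FJ Pool.Agent.R684.FP
open Pool.Agent.R941.FJ (C_equiv C_le C_cyc mem_sup_normal)

variable {C : ∀ (G : Type) [Group G], Prop}

theorem free_torsion {F : Type} [Group F] [IsFreeGroup F] {x : F} (hx : IsOfFinOrder x) :
    x = 1 := by
  have e := IsFreeGroup.toFreeGroup F
  have h1 : IsOfFinOrder (e x) := (isOfFinOrder_iff_pow_eq_one.2 (by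
    obtain ⟨n, hn, h⟩ := isOfFinOrder_iff_pow_eq_one.1 hx
    exact ⟨n, hn, by rw [← map_pow, h, map_one]⟩))
  have h2 : e x = 1 := by
    obtain ⟨n, hn, h⟩ := isOfFinOrder_iff_pow_eq_one.1 h1
    have h3 : (e x) ^ n = (1 : FreeGroup _) ^ n := by rw [h, one_pow]
    exact IsMulTorsionFree.pow_left_injective hn.ne' h3
  exact e.injective (by rw [h2, map_one])

section

variable {G V : Type} [Group G] {Λ : SimpleGraph V} {N : Subgroup G} {A : V → Subgroup G}

/-- subproducts are graph products -/
theorem IsGraphProd.sub (h : IsGraphProd Λ N A) (S : Set V) :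
    IsGraphProd (Λ.comap (Subtype.val : {u // u ∈ S} → V)) (Ps A S) (fun u => A u.1) where
  sup := rfl
  comm := fun u v huv a ha b hb => h.comm u.1 v.1 huv a ha b hb
  univ := by
    intro W _ f hf
    have hex : ∀ u, ∃ g : A u →* W, (u ∉ S → ∀ a, g a = 1) ∧
        (∀ (hu : u ∈ S) (a : A u), g a = f ⟨u, hu⟩ a) := by
      intro u
      by_cases hu : u ∈ S
      · exact ⟨f ⟨u, hu⟩, fun h => absurd hu h, fun _ a => rfl⟩
      · exact ⟨1, fun _ a => rfl, fun h => absurd h hu⟩
    choose g hg1 hg2 using hex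
    obtain ⟨F, hF⟩ := h.univ W g (by
      intro u w huw a b
      by_cases hu : u ∈ S
      · by_cases hw : w ∈ S
        · rw [hg2 u hu, hg2 w hw]
          exact hf ⟨u, hu⟩ ⟨w, hw⟩ huw _ _
        · rw [hg1 w hw, one_mul, mul_one]
      · rw [hg1 u hu, one_mul, mul_one])
    refine ⟨F.comp (Subgroup.inclusion (Ps_le h S)), ?_⟩
    rintro ⟨u, hu⟩ a ha hn
    exact (hF u a ha _).trans (hg2 u hu ⟨a, ha⟩)

/-- `F` is the projection to a vertex group -/
def IsPr (N : Subgroup G) (A : V → Subgroup G) (w : V) (F : N →* A w) : Prop :=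
  (∀ (a : G) (ha : a ∈ A w) (hn : a ∈ N), F ⟨a, hn⟩ = ⟨a, ha⟩) ∧
    ∀ u, u ≠ w → ∀ (a : G) (_ : a ∈ A u) (hn : a ∈ N), F ⟨a, hn⟩ = 1

theorem exists_pr (h : IsGraphProd Λ N A) (w : V) : ∃ F : N →* A w, IsPr N A w F := by
  have hex : ∀ u, ∃ g : A u →* A w, (u ≠ w → ∀ a, g a = 1) ∧
      (u = w → ∀ (a : G) (ha : a ∈ A u) (ha' : a ∈ A w), g ⟨a, ha⟩ = ⟨a, ha'⟩) := by
    intro u
    by_cases hu : u = w
    · subst hu
      exact ⟨MonoidHom.id _, fun h => absurd rfl h, fun _ a ha ha' => rfl⟩
    · exact ⟨1, fun _ a => rfl, fun h => absurd h hu⟩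
  choose g hg1 hg2 using hex
  obtain ⟨F, hF⟩ := h.univ (A w) g (by
    intro u v huv a b
    by_cases hu : u = w
    · have hv : v ≠ w := fun hv => huv.ne (hu.trans hv.symm)
      rw [hg1 v hv, one_mul, mul_one]
    · rw [hg1 u hu, one_mul, mul_one])
  refine ⟨F, ?_, ?_⟩
  · intro a ha hn
    rw [hF w a ha hn, hg2 w rfl a ha ha]
  · intro u hu a ha hn
    rw [hF u a ha hn, hg1 u hu]

/-- homomorphisms which agree on the vertex groups are equal -/
theorem hom_ext (h : IsGraphProd Λ N A) {W : Type} [Group W] {F F' : N →* W}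
    (hF : ∀ (v : V) (a : G) (_ : a ∈ A v) (hn : a ∈ N), F ⟨a, hn⟩ = F' ⟨a, hn⟩) : F = F' := by
  ext ⟨x, hx⟩
  have h1 : N ≤ (F.eqLocus F').map N.subtype := by
    conv_lhs => rw [← h.sup]
    refine iSup_le fun v a ha => ?_
    exact ⟨⟨a, h.le v ha⟩, hF v a ha _, rfl⟩
  obtain ⟨y, hy, hyx⟩ := h1 hx
  have h2 : y = ⟨x, hx⟩ := Subtype.ext hyx
  rw [← h2]
  exact hy

/-- in the kernel of the projections to all vertex groups there is no torsion -/
theorem tf_ker (n : ℕ) : ∀ {G V : Type} [Group G] [Finite V], Nat.card V ≤ n →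
    ∀ {Λ : SimpleGraph V} {N : Subgroup G} {A : V → Subgroup G}, IsGraphProd Λ N A →
      ∀ y : N, IsOfFinOrder y → (∀ (w : V) (F : N →* A w), IsPr N A w F → F y = 1) → y = 1 := by
  induction n with
  | zero =>
    intro G V _ _ hn Λ N A h y _ _
    have hV : IsEmpty V := by
      have h1 : Nat.card V = 0 := Nat.le_zero.1 hn
      rcases Nat.card_eq_zero.1 h1 with h2 | h2
      · exact h2
      · exact absurd h2 (not_infinite_iff_finite.2 inferInstance)
    have h1 : N = ⊥ := by
      rw [← h.sup]
      exact iSup_of_empty A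
    have h2 : (y : G) ∈ (⊥ : Subgroup G) := h1 ▸ y.2
    exact Subtype.ext (Subgroup.mem_bot.1 h2)
  | succ n ih =>
    intro G V _ _ hn Λ N A h y hy hF
    by_cases hV : IsEmpty V
    · have h1 : N = ⊥ := by
        rw [← h.sup]
        exact iSup_of_empty A
      have h2 : (y : G) ∈ (⊥ : Subgroup G) := h1 ▸ y.2
      exact Subtype.ext (Subgroup.mem_bot.1 h2)
    · rw [not_isEmpty_iff] at hV
      obtain ⟨v⟩ := hV
      have hlt : Nat.card {u // u ≠ v} < Nat.card V := Finite.card_subtype_lt (x := v) (by simp)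
      obtain ⟨r, hr1, hr2⟩ := exists_ret (h.semi v)
      -- the image in `U` is trivial
      have hsub : IsGraphProd (Λ.comap (Subtype.val : {u // u ∈ {u | u ≠ v}} → V)) (Up A v)
          (fun u => A u.1) := h.sub {u | u ≠ v}
      have hry : r y = 1 := by
        refine ih (V := {u // u ∈ {u | u ≠ v}}) (Nat.lt_succ_iff.1 (lt_of_lt_of_le hlt hn))
          hsub (r y) ?_ ?_
        · obtain ⟨m, hm, h1⟩ := isOfFinOrder_iff_pow_eq_one.1 hy
          exact isOfFinOrder_iff_pow_eq_one.2 ⟨m, hm, by rw [← map_pow, h1, map_one]⟩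
        · intro w F hFw
          have h1 : IsPr N A w.1 (F.comp r) := by
            refine ⟨?_, ?_⟩
            · intro a ha hn
              have haU : a ∈ Up A v := A_le_Ps (S := {u | u ≠ v}) w.2 ha
              show F (r ⟨a, hn⟩) = _
              rw [hr1 a haU]
              exact hFw.1 a ha haU
            · intro u hu a ha hn
              show F (r ⟨a, hn⟩) = 1
              by_cases huv : u = v
              · subst huv
                rw [hr2 a ha, map_one]
              · have haU : a ∈ Up A v := A_le_Ps (S := {u | u ≠ v}) huv ha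
                rw [hr1 a haU]
                exact hFw.2 ⟨u, huv⟩ (fun h => hu (congrArg Subtype.val h)) a ha haU
          exact hF w.1 (F.comp r) h1
      obtain ⟨m, hm, u, hu, hmu⟩ := dcp' (h.semi v) y.2
      have hu1 : u = 1 := by
        have h1 : y = (⟨m, Ncl_le (h.semi v) hm⟩ : N) * ⟨u, le_N (h.semi v) hu⟩ := Subtype.ext hmu
        rw [h1, map_mul, ret_Ncl hr2 (h.semi v) hm, one_mul, hr1 u hu] at hry
        exact congrArg Subtype.val hry
      rw [hu1, mul_one] at hmu
      -- the free product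
      have hfp := freeProd (h.semi v)
      have hmem : (y : G) ∈ (Monoid.CoprodI.lift
          fun x => (Cj (Up A v) (Lk Λ A v) (A v) x).subtype).range := by
        rw [Monoid.CoprodI.range_eq_iSup]
        have h1 : (⨆ x, (Cj (Up A v) (Lk Λ A v) (A v) x).subtype.range) =
            ⨆ x, Cj (Up A v) (Lk Λ A v) (A v) x := by
          congr 1
          funext x
          exact Subgroup.range_subtype _
        rw [h1, sup_Cj (h.semi v), hmu]
        exact hm
      obtain ⟨z, hz⟩ := hmem
      obtain ⟨F, hFv⟩ := exists_pr h v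
      have hN : ∀ x, Cj (Up A v) (Lk Λ A v) (A v) x ≤ N := fun x =>
        (Cj_le (h.semi v) x).trans (Ncl_le (h.semi v))
      let φ : Monoid.CoprodI (fun x => Cj (Up A v) (Lk Λ A v) (A v) x) →* A v :=
        F.comp (Monoid.CoprodI.lift fun x => Subgroup.inclusion (hN x))
      have hφ : ∀ x, Function.Injective (φ.comp (Monoid.CoprodI.of
          (M := fun x => Cj (Up A v) (Lk Λ A v) (A v) x) (i := x))) := by
        intro x
        induction x using QuotientGroup.induction_on with
        | H w =>
          rw [injective_iff_map_eq_one]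
          intro a ha
          have h1 : φ (oC a) = F ⟨a, hN _ a.2⟩ := by
            show F (Monoid.CoprodI.lift (fun x => Subgroup.inclusion (hN x)) (oC a)) = _
            rw [Monoid.CoprodI.lift_of]
            rfl
          have h2 : F ⟨a, hN _ a.2⟩ = 1 := h1.symm.trans ha
          have hb := (mem_Cj (h.semi v) w a).1 a.2
          have hw : F ⟨w, le_N (h.semi v) w.2⟩ = 1 := by
            have h3 : Up A v ≤ F.ker.map N.subtype := by
              refine iSup_le fun u a ha => ?_
              exact ⟨⟨a, h.le u.1 ha⟩, hFv.2 u.1 u.2 a ha _, rfl⟩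
            obtain ⟨y', hy', hyx⟩ := h3 w.2
            have h4 : y' = ⟨w, le_N (h.semi v) w.2⟩ := Subtype.ext hyx
            rw [← h4]
            exact hy'
          have h3 : (⟨a, hN _ a.2⟩ : N) = ⟨w, le_N (h.semi v) w.2⟩ *
              ⟨(w : G)⁻¹ * a * w, h.le v hb⟩ * (⟨w, le_N (h.semi v) w.2⟩)⁻¹ := by
            apply Subtype.ext
            show (a : G) = (w : G) * ((w : G)⁻¹ * a * w) * (w : G)⁻¹
            group
          rw [h3, map_mul, map_mul, map_inv, hw, hFv.1 _ hb, one_mul, inv_one, mul_one] at h2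
          have h4 : (w : G)⁻¹ * a * w = 1 := congrArg Subtype.val h2
          apply Subtype.ext
          have h5 : (a : G) = (w : G) * ((w : G)⁻¹ * a * w) * (w : G)⁻¹ := by group
          show (a : G) = 1
          rw [h5, h4]
          group
      have hfree := ker_free φ hφ
      have hzk : z ∈ φ.ker := by
        have h1 : (Monoid.CoprodI.lift (fun x => Subgroup.inclusion (hN x)) z : N) = y := by
          apply Subtype.ext
          rw [← hz]
          have h2 : N.subtype.comp (Monoid.CoprodI.lift (fun x => Subgroup.inclusion (hN x))) =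
              Monoid.CoprodI.lift fun x => (Cj (Up A v) (Lk Λ A v) (A v) x).subtype := by
            apply Monoid.CoprodI.ext_hom
            intro x
            ext a : 1
            show ((Monoid.CoprodI.lift (fun x => Subgroup.inclusion (hN x)) (oC a) : N) : G) =
              Monoid.CoprodI.lift (fun x => (Cj (Up A v) (Lk Λ A v) (A v) x).subtype) (oC a)
            rw [Monoid.CoprodI.lift_of, Monoid.CoprodI.lift_of]
            rfl
          exact DFunLike.congr_fun h2 z
        show F (Monoid.CoprodI.lift (fun x => Subgroup.inclusion (hN x)) z) = 1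
        rw [h1]
        exact hF v F hFv
      have hz1 : (⟨z, hzk⟩ : φ.ker) = 1 := by
        apply free_torsion
        obtain ⟨m', hm', h1⟩ := isOfFinOrder_iff_pow_eq_one.1 hy
        refine isOfFinOrder_iff_pow_eq_one.2 ⟨m', hm', ?_⟩
        apply Subtype.ext
        apply hfp.inj
        show Monoid.CoprodI.lift _ (z ^ m') = Monoid.CoprodI.lift _ 1
        rw [map_pow, hz, map_one]
        exact congrArg Subtype.val h1
      have hz2 : z = 1 := congrArg Subtype.val hz1
      apply Subtype.ext
      rw [← hz, hz2, map_one]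
      rfl

end

end Pool.Agent.K7.H29.GP
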