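import Pool.Agent.R684.FP.Main

/-!
# Amalgamated products `U *_L (A ⋊ L)`

The normal closure of `A` in `U *_L (A ⋊ L)` is the free product of the conjugates `x A x⁻¹`,
`x ∈ U / L`.
-/

set_option autoImplicit false

namespace Pool.Agent.K7.H29.GP

open Pool.Agent.Y110.FJ Pool.Agent.R684.FP
open Pool.Agent.R941.FJ (C_equiv C_le C_cyc mem_sup_normal)

/-- `N` is the amalgamated product of `U` and `A ⋊ L` over `L ≤ U` -/
structure SemiAm {G : Type} [Group G] (N U L A : Subgroup G) : Prop where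
  le : L ≤ U
  nrm : ∀ l ∈ L, ∀ a ∈ A, l * a * l⁻¹ ∈ A
  sup : U ⊔ A = N
  univ : ∀ (W : Type) [Group W] (f : U →* W) (h : A →* W),
    (∀ (l : G) (hl : l ∈ L) (a : G) (ha : a ∈ A),
      h ⟨l * a * l⁻¹, nrm l hl a ha⟩ = f ⟨l, le hl⟩ * h ⟨a, ha⟩ * (f ⟨l, le hl⟩)⁻¹) →
    ∃ F : N →* W, (∀ (u : G) (hu : u ∈ U) (hn : u ∈ N), F ⟨u, hn⟩ = f ⟨u, hu⟩) ∧
      (∀ (a : G) (ha : a ∈ A) (hn : a ∈ N), F ⟨a, hn⟩ = h ⟨a, ha⟩)

section kernel

variable {G : Type} [Group G] {N U L A : Subgroup G}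

/-- the cosets -/
abbrev Cs (U L : Subgroup G) : Type := ↥U ⧸ L.subgroupOf U

variable (U L A) in
/-- the conjugates of `A` -/
noncomputable def Cj (x : Cs U L) : Subgroup G :=
  A.map (MulAut.conj ((Quotient.out x : U) : G)).toMonoidHom

theorem mem_Cj (h : SemiAm N U L A) (w : U) (g : G) :
    g ∈ Cj U L A (QuotientGroup.mk w) ↔ (w : G)⁻¹ * g * w ∈ A := by
  obtain ⟨l, hl⟩ := QuotientGroup.mk_out_eq_mul (L.subgroupOf U) w
  have hl' : ((l : U) : G) ∈ L := l.2
  have h0 : g ∈ Cj U L A (QuotientGroup.mk w) ↔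
      ((Quotient.out (QuotientGroup.mk w : Cs U L) : U) : G)⁻¹ * g *
        ((Quotient.out (QuotientGroup.mk w : Cs U L) : U) : G) ∈ A := by
    rw [Cj]
    constructor
    · rintro ⟨a, ha, rfl⟩
      have h1 : ∀ x : G, x⁻¹ * ((MulAut.conj x).toMonoidHom a) * x = a := by
        intro x
        show x⁻¹ * (x * a * x⁻¹) * x = a
        group
      rw [h1]
      exact ha
    · intro h1
      refine ⟨_, h1, ?_⟩
      have h2 : ∀ x : G, (MulAut.conj x).toMonoidHom (x⁻¹ * g * x) = g := by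
        intro x
        show x * (x⁻¹ * g * x) * x⁻¹ = g
        group
      rw [h2]
  rw [h0, hl]
  have h3 : ((w * (l : U) : U) : G) = (w : G) * ((l : U) : G) := rfl
  rw [h3]
  have h4 : ((w : G) * ((l : U) : G))⁻¹ * g * ((w : G) * ((l : U) : G)) =
      ((l : U) : G)⁻¹ * ((w : G)⁻¹ * g * w) * ((l : U) : G) := by group
  rw [h4]
  constructor
  · intro h5
    have h6 := h.nrm _ hl' _ h5
    have h7 : ((l : U) : G) * (((l : U) : G)⁻¹ * ((w : G)⁻¹ * g * w) * ((l : U) : G)) *
        ((l : U) : G)⁻¹ = (w : G)⁻¹ * g * w := by group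
    rwa [h7] at h6
  · intro h5
    have h6 := h.nrm _ (L.inv_mem hl') _ h5
    rwa [inv_inv] at h6

/-- the inclusion of a conjugate in the free product -/
noncomputable abbrev oC {x : Cs U L} (a : Cj U L A x) : Monoid.CoprodI (fun x => Cj U L A x) :=
  Monoid.CoprodI.of (M := fun x => Cj U L A x) (i := x) a

theorem oC_eq {x y : Cs U L} (hxy : x = y) {a : Cj U L A x} {b : Cj U L A y}
    (hab : (a : G) = b) : oC a = oC b := by
  subst hxy
  rw [Subtype.ext hab]

theorem smul_mem_Cj (h : SemiAm N U L A) (u : U) (x : Cs U L) {g : G} (hg : g ∈ Cj U L A x) :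
    (u : G) * g * (u : G)⁻¹ ∈ Cj U L A (u • x) := by
  induction x using QuotientGroup.induction_on with
  | H w =>
    rw [MulAction.Quotient.smul_mk, mem_Cj h]
    rw [mem_Cj h] at hg
    have h1 : ((u • w : U) : G)⁻¹ * ((u : G) * g * (u : G)⁻¹) * ((u • w : U) : G) =
        (w : G)⁻¹ * g * w := by
      have h2 : ((u • w : U) : G) = (u : G) * w := rfl
      rw [h2]
      group
    rw [h1]
    exact hg

/-- conjugation -/
noncomputable def cj (h : SemiAm N U L A) (u : U) (x : Cs U L) :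
    Cj U L A x →* Cj U L A (u • x) where
  toFun g := ⟨(u : G) * g * (u : G)⁻¹, smul_mem_Cj h u x g.2⟩
  map_one' := by
    apply Subtype.ext
    show (u : G) * 1 * (u : G)⁻¹ = 1
    group
  map_mul' a b := by
    apply Subtype.ext
    show (u : G) * (a * b : G) * (u : G)⁻¹ = (u : G) * a * (u : G)⁻¹ * ((u : G) * b * (u : G)⁻¹)
    group

/-- the action of `U` on the free product -/
noncomputable def ac (h : SemiAm N U L A) (u : U) :
    Monoid.CoprodI (fun x => Cj U L A x) →* Monoid.CoprodI (fun x => Cj U L A x) :=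
  Monoid.CoprodI.lift fun x =>
    (Monoid.CoprodI.of (M := fun x => Cj U L A x) (i := u • x)).comp (cj h u x)

theorem ac_of (h : SemiAm N U L A) (u : U) {x : Cs U L} (a : Cj U L A x) :
    ac h u (oC a) = oC (cj h u x a) := by
  rw [ac, Monoid.CoprodI.lift_of]
  rfl

theorem ac_mul (h : SemiAm N U L A) (u w : U) (z : Monoid.CoprodI (fun x => Cj U L A x)) :
    ac h u (ac h w z) = ac h (u * w) z := by
  have : (ac h u).comp (ac h w) = ac h (u * w) := by
    apply Monoid.CoprodI.ext_hom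
    intro x
    ext a : 1
    show ac h u (ac h w (oC a)) = ac h (u * w) (oC a)
    rw [ac_of, ac_of, ac_of]
    apply oC_eq (mul_smul u w x).symm
    show (u : G) * ((w : G) * a * (w : G)⁻¹) * (u : G)⁻¹ = ((u * w : U) : G) * a * ((u * w : U) : G)⁻¹
    have h2 : ((u * w : U) : G) = (u : G) * w := rfl
    rw [h2]
    group
  exact DFunLike.congr_fun this z

theorem ac_one (h : SemiAm N U L A) (z : Monoid.CoprodI (fun x => Cj U L A x)) :
    ac h 1 z = z := by
  have : ac h 1 = MonoidHom.id _ := by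
    apply Monoid.CoprodI.ext_hom
    intro x
    ext a : 1
    show ac h 1 (oC a) = oC a
    rw [ac_of]
    apply oC_eq (one_smul _ x)
    show ((1 : U) : G) * a * ((1 : U) : G)⁻¹ = a
    simp
  exact DFunLike.congr_fun this z

/-- the action of `U` on the free product -/
noncomputable def acH (h : SemiAm N U L A) : U →* MulAut (Monoid.CoprodI (fun x => Cj U L A x)) where
  toFun u :=
    { toFun := ac h u
      invFun := ac h u⁻¹
      left_inv := fun z => by rw [ac_mul, inv_mul_cancel, ac_one]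
      right_inv := fun z => by rw [ac_mul, mul_inv_cancel, ac_one]
      map_mul' := map_mul _ }
  map_one' := by
    ext z
    exact ac_one h z
  map_mul' u w := by
    ext z
    exact (ac_mul h u w z).symm

theorem acH_apply (h : SemiAm N U L A) (u : U) (z : Monoid.CoprodI (fun x => Cj U L A x)) :
    acH h u z = ac h u z := rfl

theorem le_N (h : SemiAm N U L A) : U ≤ N := by
  rw [← h.sup]
  exact le_sup_left

theorem A_le_N (h : SemiAm N U L A) : A ≤ N := by
  rw [← h.sup]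
  exact le_sup_right

/-- the homomorphism to the semidirect product -/
theorem exists_theta (h : SemiAm N U L A) :
    ∃ F : N →* Monoid.CoprodI (fun x => Cj U L A x) ⋊[acH h] U,
      (∀ (u : G) (hu : u ∈ U) (hn : u ∈ N), F ⟨u, hn⟩ = SemidirectProduct.inr ⟨u, hu⟩) ∧
      (∀ (a : G) (ha : a ∈ A) (hn : a ∈ N) (h1 : a ∈ Cj U L A (QuotientGroup.mk 1)),
        F ⟨a, hn⟩ = SemidirectProduct.inl (oC ⟨a, h1⟩)) := by
  have hA : ∀ a ∈ A, a ∈ Cj U L A (QuotientGroup.mk 1) := by
    intro a ha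
    rw [mem_Cj h]
    simpa using ha
  obtain ⟨F, hF1, hF2⟩ := h.univ (Monoid.CoprodI (fun x => Cj U L A x) ⋊[acH h] U)
    SemidirectProduct.inr (SemidirectProduct.inl.comp
      ((Monoid.CoprodI.of (M := fun x => Cj U L A x) (i := QuotientGroup.mk 1)).comp
        (Subgroup.inclusion hA))) (by
    intro l hl a ha
    show SemidirectProduct.inl
        (oC (⟨l * a * l⁻¹, hA _ (h.nrm l hl a ha)⟩ : Cj U L A (QuotientGroup.mk 1))) =
      SemidirectProduct.inr (⟨l, h.le hl⟩ : U) *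
        SemidirectProduct.inl (oC (⟨a, hA a ha⟩ : Cj U L A (QuotientGroup.mk 1))) *
        (SemidirectProduct.inr (⟨l, h.le hl⟩ : U))⁻¹
    rw [← map_inv, ← SemidirectProduct.inl_aut, acH_apply, ac_of]
    congr 1
    apply oC_eq
    · symm
      show ((⟨l, h.le hl⟩ : U) • (QuotientGroup.mk 1 : Cs U L)) = QuotientGroup.mk 1
      rw [MulAction.Quotient.smul_mk, smul_eq_mul, mul_one]
      rw [QuotientGroup.eq]
      rw [Subgroup.mem_subgroupOf]
      simpa using hl
    · rfl)
  exact ⟨F, hF1, fun a ha hn h1 => hF2 a ha hn⟩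

/-- the retraction onto `U` -/
theorem exists_ret (h : SemiAm N U L A) :
    ∃ F : N →* U, (∀ (u : G) (hu : u ∈ U) (hn : u ∈ N), F ⟨u, hn⟩ = ⟨u, hu⟩) ∧
      (∀ (a : G) (_ : a ∈ A) (hn : a ∈ N), F ⟨a, hn⟩ = 1) := by
  obtain ⟨F, hF1, hF2⟩ := h.univ U (MonoidHom.id U) 1 (by
    intro l hl a ha
    simp)
  exact ⟨F, hF1, fun a ha hn => hF2 a ha hn⟩

/-- the conjugates of `A` generate their free product -/
theorem freeProd (h : SemiAm N U L A) : IsFreeProd (⨆ x, Cj U L A x) (Cj U L A) := by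
  refine ⟨rfl, ?_⟩
  obtain ⟨F, hF1, hF2⟩ := exists_theta h
  have hN : ∀ x, Cj U L A x ≤ N := by
    intro x
    induction x using QuotientGroup.induction_on with
    | H w =>
      intro g hg
      rw [mem_Cj h] at hg
      have h1 : g = (w : G) * ((w : G)⁻¹ * g * w) * (w : G)⁻¹ := by group
      rw [h1]
      exact N.mul_mem (N.mul_mem (le_N h w.2) (A_le_N h hg)) (N.inv_mem (le_N h w.2))
  have key : ∀ z : Monoid.CoprodI (fun x => Cj U L A x),
      F (Monoid.CoprodI.lift (fun x => Subgroup.inclusion (hN x)) z) = SemidirectProduct.inl z := by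
    have : F.comp (Monoid.CoprodI.lift (fun x => Subgroup.inclusion (hN x))) =
        SemidirectProduct.inl := by
      apply Monoid.CoprodI.ext_hom
      intro x
      ext a : 1
      show F (Monoid.CoprodI.lift (fun x => Subgroup.inclusion (hN x)) (oC a)) =
        SemidirectProduct.inl (oC a)
      rw [Monoid.CoprodI.lift_of]
      induction x using QuotientGroup.induction_on with
      | H w =>
        have hb := (mem_Cj h w a).1 a.2
        obtain ⟨b, hb0⟩ : ∃ b, b = (w : G)⁻¹ * a * w := ⟨_, rfl⟩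
        rw [← hb0] at hb
        have hb1 : b ∈ Cj U L A (QuotientGroup.mk 1) := by
          rw [mem_Cj h]
          simpa using hb
        have h1 : (Subgroup.inclusion (hN (QuotientGroup.mk w)) a) =
            (⟨w, le_N h w.2⟩ : N) * ⟨b, A_le_N h hb⟩ * (⟨w, le_N h w.2⟩ : N)⁻¹ := by
          apply Subtype.ext
          show (a : G) = (w : G) * b * (w : G)⁻¹
          rw [hb0]
          group
        rw [h1, map_mul, map_mul, map_inv, hF1 w w.2, hF2 b hb _ hb1, ← map_inv,
          ← SemidirectProduct.inl_aut, acH_apply, ac_of]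
        congr 1
        apply oC_eq
        · show ((w : U) • (QuotientGroup.mk 1 : Cs U L)) = QuotientGroup.mk w
          rw [MulAction.Quotient.smul_mk, smul_eq_mul, mul_one]
        · show (w : G) * b * (w : G)⁻¹ = a
          rw [hb0]
          group
    intro z
    exact DFunLike.congr_fun this z
  have h2 : (Monoid.CoprodI.lift fun x => (Cj U L A x).subtype) =
      N.subtype.comp (Monoid.CoprodI.lift (fun x => Subgroup.inclusion (hN x))) := by
    apply Monoid.CoprodI.ext_hom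
    intro x
    ext a : 1
    show Monoid.CoprodI.lift (fun x => (Cj U L A x).subtype) (oC a) =
      ((Monoid.CoprodI.lift (fun x => Subgroup.inclusion (hN x)) (oC a) : N) : G)
    rw [Monoid.CoprodI.lift_of, Monoid.CoprodI.lift_of]
    rfl
  rw [h2]
  have h3 : Function.Injective (Monoid.CoprodI.lift (fun x => Subgroup.inclusion (hN x))) := by
    intro y z hyz
    have h4 := congrArg F hyz
    rw [key, key] at h4
    exact SemidirectProduct.inl_injective h4
  exact N.subtype_injective.comp h3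

variable (N A) in
/-- the subgroup generated by the `N`-conjugates of `A` -/
def Ncl : Subgroup G := Subgroup.closure {x | ∃ n ∈ N, ∃ a ∈ A, x = n * a * n⁻¹}

theorem Ncl_conj {n x : G} (hn : n ∈ N) (hx : x ∈ Ncl N A) : n * x * n⁻¹ ∈ Ncl N A := by
  have h1 : Ncl N A ≤ (Ncl N A).comap (MulAut.conj n).toMonoidHom := by
    rw [Ncl, Subgroup.closure_le]
    rintro _ ⟨m, hm, a, ha, rfl⟩
    show n * (m * a * m⁻¹) * n⁻¹ ∈ Subgroup.closure {x | ∃ n ∈ N, ∃ a ∈ A, x = n * a * n⁻¹}
    exact Subgroup.subset_closure ⟨n * m, N.mul_mem hn hm, a, ha, by group⟩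
  exact h1 hx

theorem A_le_Ncl : A ≤ Ncl N A := fun a ha =>
  Subgroup.subset_closure ⟨1, N.one_mem, a, ha, by group⟩

theorem Cj_le (h : SemiAm N U L A) (x : Cs U L) : Cj U L A x ≤ Ncl N A := by
  induction x using QuotientGroup.induction_on with
  | H w =>
    intro g hg
    rw [mem_Cj h] at hg
    exact Subgroup.subset_closure ⟨w, le_N h w.2, _, hg, by group⟩

/-- every element of `N` is a product of an element of the kernel and one of `U` -/
theorem dcp (h : SemiAm N U L A) {n : G} (hn : n ∈ N) :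
    ∃ m ∈ ⨆ x, Cj U L A x, ∃ u ∈ U, n = m * u := by
  have hU : ∀ u ∈ U, ∀ m ∈ ⨆ x, Cj U L A x, u * m * u⁻¹ ∈ ⨆ x, Cj U L A x := by
    intro u hu m hm
    have h1 : (⨆ x, Cj U L A x) ≤ (⨆ x, Cj U L A x).comap (MulAut.conj u).toMonoidHom := by
      refine iSup_le fun x g hg => ?_
      show u * g * u⁻¹ ∈ ⨆ x, Cj U L A x
      exact (le_iSup (Cj U L A) ((⟨u, hu⟩ : U) • x)) (smul_mem_Cj h ⟨u, hu⟩ x hg)
    exact h1 hm
  have h2 : N ≤ (⨆ x, Cj U L A x) ⊔ U := by
    rw [← h.sup]
    refine sup_le le_sup_right ?_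
    intro a ha
    refine (le_sup_left : _ ≤ (⨆ x, Cj U L A x) ⊔ U) ((le_iSup (Cj U L A) (QuotientGroup.mk 1)) ?_)
    rw [mem_Cj h]
    simpa using ha
  have h3 : ∀ x ∈ (⨆ x, Cj U L A x) ⊔ U, ∃ m ∈ ⨆ x, Cj U L A x, ∃ u ∈ U, x = m * u := by
    intro x hx
    rw [sup_comm, Subgroup.sup_eq_closure_mul] at hx
    induction hx using Subgroup.closure_induction with
    | mem x hx =>
      obtain ⟨u, hu, m, hm, rfl⟩ := Set.mem_mul.1 hx
      exact ⟨u * m * u⁻¹, hU u hu m hm, u, hu, by group⟩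
    | one => exact ⟨1, one_mem _, 1, one_mem _, by group⟩
    | mul x y _ _ hx hy =>
      obtain ⟨m, hm, u, hu, rfl⟩ := hx
      obtain ⟨m', hm', u', hu', rfl⟩ := hy
      exact ⟨m * (u * m' * u⁻¹), mul_mem hm (hU u hu m' hm'), u * u', mul_mem hu hu', by group⟩
    | inv x _ hx =>
      obtain ⟨m, hm, u, hu, rfl⟩ := hx
      refine ⟨u⁻¹ * m⁻¹ * u⁻¹⁻¹, hU _ (inv_mem hu) _ (inv_mem hm), u⁻¹, inv_mem hu, by group⟩
  exact h3 n (h2 hn)

theorem sup_Cj (h : SemiAm N U L A) : ⨆ x, Cj U L A x = Ncl N A := by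
  apply le_antisymm (iSup_le (Cj_le h))
  rw [Ncl, Subgroup.closure_le]
  rintro _ ⟨n, hn, a, ha, rfl⟩
  obtain ⟨m, hm, u, hu, rfl⟩ := dcp h hn
  have h1 : u * a * u⁻¹ ∈ ⨆ x, Cj U L A x := by
    refine (le_iSup (Cj U L A) (QuotientGroup.mk ⟨u, hu⟩)) ?_
    rw [mem_Cj h]
    have h2 : (u)⁻¹ * (u * a * u⁻¹) * u = a := by group
    show (u)⁻¹ * (u * a * u⁻¹) * u ∈ A
    rw [h2]
    exact ha
  have h3 : m * u * a * (m * u)⁻¹ = m * (u * a * u⁻¹) * m⁻¹ := by group
  rw [SetLike.mem_coe, h3]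
  exact mul_mem (mul_mem hm h1) (inv_mem hm)

theorem Ncl_le (h : SemiAm N U L A) : Ncl N A ≤ N := by
  rw [Ncl, Subgroup.closure_le]
  rintro _ ⟨n, hn, a, ha, rfl⟩
  exact N.mul_mem (N.mul_mem hn (A_le_N h ha)) (N.inv_mem hn)

theorem ret_Ncl {F : N →* U} (hF : ∀ (a : G) (_ : a ∈ A) (hn : a ∈ N), F ⟨a, hn⟩ = 1)
    (h : SemiAm N U L A) {m : G} (hm : m ∈ Ncl N A) (hn : m ∈ N) : F ⟨m, hn⟩ = 1 := by
  have h1 : Ncl N A ≤ (F.ker).map N.subtype := by
    rw [Ncl, Subgroup.closure_le]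
    rintro _ ⟨n, hn, a, ha, rfl⟩
    refine ⟨⟨n, hn⟩ * ⟨a, A_le_N h ha⟩ * (⟨n, hn⟩)⁻¹, ?_, rfl⟩
    rw [SetLike.mem_coe, MonoidHom.mem_ker, map_mul, map_mul, map_inv, hF a ha, mul_one,
      mul_inv_cancel]
  obtain ⟨y, hy, hym⟩ := h1 hm
  have h2 : y = ⟨m, hn⟩ := Subtype.ext hym
  rw [← h2]
  exact hy

/-- the intersection of `U` and of the kernel -/
theorem U_inf (h : SemiAm N U L A) {u : G} (hu : u ∈ U) (hm : u ∈ Ncl N A) : u = 1 := by
  obtain ⟨F, hF1, hF2⟩ := exists_ret h
  have h1 := ret_Ncl hF2 h hm (le_N h hu)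
  rw [hF1 u hu] at h1
  exact congrArg Subtype.val h1

theorem dcp' (h : SemiAm N U L A) {n : G} (hn : n ∈ N) :
    ∃ m ∈ Ncl N A, ∃ u ∈ U, n = m * u := by
  rw [← sup_Cj h]
  exact dcp h hn

end kernel

variable {C : ∀ (G : Type) [Group G], Prop}

/-- **the induction step** -/
theorem step (hC : ClosedE C) (hF : FbC C) {G : Type} [Group G] {N U L A : Subgroup G}
    (h : SemiAm N U L A) [hM : (Ncl N A).Normal] (hQ : C (G ⧸ Ncl N A))
    (hcase : IsFreeGroup A ∨
      ((∀ g : G, ∃ n ∈ N, ∀ x, x ∈ A ↔ n * (g * x * g⁻¹) * n⁻¹ ∈ A) ∧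
        ∀ g : G, (∀ x, x ∈ A ↔ g * x * g⁻¹ ∈ A) → C ↥(A ⊔ Subgroup.zpowers g))) : C G := by
  have hfp : IsFreeProd (Ncl N A) (Cj U L A) := by
    rw [← sup_Cj h]
    exact freeProd h
  rcases hcase with hfree | ⟨hp, hB⟩
  · refine main_all hC hF hQ (Cj U L A) ∅ hfp ?_ ?_ ?_
    · intro x _
      exact IsFreeGroup.ofMulEquiv (A.equivMapOfInjective (MulAut.conj _).toMonoidHom
        (MulAut.conj _).injective)
    · rintro x ⟨⟩
    · rintro x ⟨⟩
  · refine main_all hC hF hQ (Cj U L A) Set.univ hfp ?_ ?_ ?_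
    · intro x hx
      exact absurd (Set.mem_univ x) hx
    · intro x _ g
      induction x using QuotientGroup.induction_on with
      | H w =>
        obtain ⟨n, hn, h1⟩ := hp (g * w)
        obtain ⟨m, hm, u, hu, hmu⟩ := dcp' h (N.inv_mem hn)
        refine ⟨QuotientGroup.mk ⟨u, hu⟩, Set.mem_univ _, m⁻¹, inv_mem hm, fun x => ?_⟩
        rw [mem_Cj h, mem_Cj h, h1]
        have h2 : n = u⁻¹ * m⁻¹ := by
          rw [← inv_inj, hmu]
          group
        have h3 : n * (g * w * ((w : G)⁻¹ * x * w) * (g * w)⁻¹) * n⁻¹ =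
            u⁻¹ * (m⁻¹ * (g * x * g⁻¹) * m⁻¹⁻¹) * u := by
          rw [h2]
          group
        rw [h3]
    · intro x _ g hg
      induction x using QuotientGroup.induction_on with
      | H w =>
        have h1 : ∀ x, x ∈ A ↔ ((w : G)⁻¹ * g * w) * x * ((w : G)⁻¹ * g * w)⁻¹ ∈ A := by
          intro x
          have h2 := hg (w * x * (w : G)⁻¹)
          rw [mem_Cj h, mem_Cj h] at h2
          have h3 : (w : G)⁻¹ * (w * x * (w : G)⁻¹) * w = x := by group
          have h4 : (w : G)⁻¹ * (g * (w * x * (w : G)⁻¹) * g⁻¹) * w =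
            ((w : G)⁻¹ * g * w) * x * ((w : G)⁻¹ * g * w)⁻¹ := by group
          rwa [h3, h4] at h2
        have h2 := hB _ h1
        have h3 : Cj U L A (QuotientGroup.mk w) ⊔ Subgroup.zpowers g =
            (A ⊔ Subgroup.zpowers ((w : G)⁻¹ * g * w)).map (MulAut.conj (w : G)).toMonoidHom := by
          rw [Subgroup.map_sup, MonoidHom.map_zpowers]
          congr 1
          · ext x
            rw [mem_Cj h, Subgroup.mem_map]
            constructor
            · intro hx
              refine ⟨_, hx, ?_⟩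
              show (w : G) * ((w : G)⁻¹ * x * w) * (w : G)⁻¹ = x
              group
            · rintro ⟨y, hy, rfl⟩
              have h5 : (w : G)⁻¹ * ((MulAut.conj (w : G)).toMonoidHom y) * w = y := by
                show (w : G)⁻¹ * ((w : G) * y * (w : G)⁻¹) * w = y
                group
              rw [h5]
              exact hy
          · congr 1
            show g = (w : G) * ((w : G)⁻¹ * g * w) * (w : G)⁻¹
            group
        rw [h3]
        exact C_equiv hC.base ((A ⊔ Subgroup.zpowers ((w : G)⁻¹ * g * w)).equivMapOfInjective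
          (MulAut.conj (w : G)).toMonoidHom (MulAut.conj (w : G)).injective).symm h2

end Pool.Agent.K7.H29.GP
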