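import Pool.Agent.K7.H29.GP.Sub
import Pool.Agent.R779.FJ.Col
import Pool.Agent.Y961.FJ.Perm

/-!
# Extensions whose kernel is a graph product: the general theorem
-/

set_option autoImplicit false

namespace Pool.Agent.K7.H29.GP

open Pool.Agent.Y110.FJ Pool.Agent.R684.FP
open Pool.Agent.R941.FJ (C_equiv C_le C_cyc mem_sup_normal)

variable {C : ∀ (G : Type) [Group G], Prop}

section

variable {G V : Type} [Group G] {Λ : SimpleGraph V} {N : Subgroup G} {A : V → Subgroup G}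

/-- `g B g⁻¹` is conjugate to `D` by an element of `N` -/
def CC (N : Subgroup G) (g : G) (B D : Subgroup G) : Prop :=
  ∃ n ∈ N, ∀ x, x ∈ B ↔ n * (g * x * g⁻¹) * n⁻¹ ∈ D

theorem CC.of_mem {N : Subgroup G} {n : G} (hn : n ∈ N) (B : Subgroup G) : CC N n B B :=
  ⟨n⁻¹, N.inv_mem hn, fun x => by
    have h1 : n⁻¹ * (n * x * n⁻¹) * n⁻¹⁻¹ = x := by group
    rw [h1]⟩

theorem CC.trans {N : Subgroup G} [hN : N.Normal] {g g' : G} {B D E : Subgroup G}
    (h : CC N g B D) (h' : CC N g' D E) : CC N (g' * g) B E := by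
  obtain ⟨n, hn, hx⟩ := h
  obtain ⟨n', hn', hx'⟩ := h'
  refine ⟨n' * (g' * n * g'⁻¹), N.mul_mem hn' (hN.conj_mem n hn g'), fun x => ?_⟩
  rw [hx, hx']
  have h1 : n' * (g' * (n * (g * x * g⁻¹) * n⁻¹) * g'⁻¹) * n'⁻¹ =
      n' * (g' * n * g'⁻¹) * (g' * g * x * (g' * g)⁻¹) * (n' * (g' * n * g'⁻¹))⁻¹ := by group
  rw [h1]

theorem CC.symm {N : Subgroup G} [hN : N.Normal] {g : G} {B D : Subgroup G}
    (h : CC N g B D) : CC N g⁻¹ D B := by
  obtain ⟨n, hn, hx⟩ := h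
  refine ⟨g⁻¹ * n⁻¹ * g⁻¹⁻¹, hN.conj_mem _ (N.inv_mem hn) _, fun x => ?_⟩
  rw [hx]
  have h1 : n * (g * (g⁻¹ * n⁻¹ * g⁻¹⁻¹ * (g⁻¹ * x * g⁻¹⁻¹) * (g⁻¹ * n⁻¹ * g⁻¹⁻¹)⁻¹) * g⁻¹) * n⁻¹ =
      x := by group
  rw [h1]

theorem CC.pow {N : Subgroup G} [hN : N.Normal] {g : G} {B : Subgroup G}
    (h : CC N g B B) (k : ℕ) : CC N (g ^ k) B B := by
  induction k with
  | zero =>
    rw [pow_zero]
    exact CC.of_mem N.one_mem B
  | succ k ih =>
    rw [pow_succ']
    exact ih.trans h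

theorem CC.zpow {N : Subgroup G} [hN : N.Normal] {g : G} {B : Subgroup G}
    (h : CC N g B B) (k : ℤ) : CC N (g ^ k) B B := by
  obtain ⟨m, rfl | rfl⟩ := k.eq_nat_or_neg
  · rw [zpow_natCast]
    exact h.pow m
  · rw [zpow_neg, zpow_natCast]
    exact (h.pow m).symm

theorem CC.bot {N : Subgroup G} {g : G} {B D : Subgroup G}
    (h : CC N g B D) (hB : B = ⊥) : D = ⊥ := by
  obtain ⟨n, hn, hx⟩ := h
  rw [eq_bot_iff]
  intro y hy
  have h1 : (n * g)⁻¹ * y * (n * g) ∈ B := by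
    rw [hx]
    have h2 : n * (g * ((n * g)⁻¹ * y * (n * g)) * g⁻¹) * n⁻¹ = y := by group
    rwa [h2]
  rw [hB, Subgroup.mem_bot] at h1
  rw [Subgroup.mem_bot]
  have h3 : y = (n * g) * ((n * g)⁻¹ * y * (n * g)) * (n * g)⁻¹ := by group
  rw [h3, h1]
  group

theorem CC.bot' {N : Subgroup G} {g : G} {B D : Subgroup G}
    (h : CC N g B D) (hD : D = ⊥) : B = ⊥ := by
  obtain ⟨n, hn, hx⟩ := h
  rw [eq_bot_iff]
  intro x hx1
  have h1 := (hx x).1 hx1
  rw [hD, Subgroup.mem_bot] at h1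
  rw [Subgroup.mem_bot]
  have h3 : x = (n * g)⁻¹ * (n * (g * x * g⁻¹) * n⁻¹) * (n * g) := by group
  rw [h3, h1]
  group

/-- the vertex group in a conjugacy class is unique -/
theorem CC.unique (h : IsGraphProd Λ N A) [N.Normal] {g : G} {B : Subgroup G} {v w : V}
    (hv : CC N g B (A v)) (hw : CC N g B (A w)) (hne : A v ≠ ⊥) : v = w := by
  by_contra hvw
  obtain ⟨n, hn, hx⟩ := hv
  obtain ⟨m, hm, hy⟩ := hw
  obtain ⟨F, hF1, hF2⟩ := exists_retS h {v}
  apply hne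
  rw [eq_bot_iff]
  intro x hxv
  rw [Subgroup.mem_bot]
  have h1 : (n * g)⁻¹ * x * (n * g) ∈ B := by
    rw [hx]
    have h2 : n * (g * ((n * g)⁻¹ * x * (n * g)) * g⁻¹) * n⁻¹ = x := by group
    rwa [h2]
  have h2 := (hy _).1 h1
  have h3 : m * (g * ((n * g)⁻¹ * x * (n * g)) * g⁻¹) * m⁻¹ = (m * n⁻¹) * x * (m * n⁻¹)⁻¹ := by
    group
  rw [h3] at h2
  have hmn : m * n⁻¹ ∈ N := N.mul_mem hm (N.inv_mem hn)
  have h4 := hF2 w (fun h => hvw h.symm) _ h2 (h.le w h2)
  have h5 : (⟨(m * n⁻¹) * x * (m * n⁻¹)⁻¹, h.le w h2⟩ : N) =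
      ⟨m * n⁻¹, hmn⟩ * ⟨x, h.le v hxv⟩ * (⟨m * n⁻¹, hmn⟩)⁻¹ := rfl
  rw [h5, map_mul, map_mul, map_inv, hF1 v rfl x hxv, mul_inv_eq_one, mul_eq_left] at h4
  exact congrArg Subtype.val h4

end

/-- the index of the subgroup generated by a power -/
theorem fi_rel {G : Type} [Group G] (N : Subgroup G) [hN : N.Normal] (g : G) {m : ℕ} (hm : 0 < m) :
    ((N ⊔ Subgroup.zpowers (g ^ m)).subgroupOf (N ⊔ Subgroup.zpowers g)).FiniteIndex := by
  have : Finite (↥(N ⊔ Subgroup.zpowers g) ⧸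
      (N ⊔ Subgroup.zpowers (g ^ m)).subgroupOf (N ⊔ Subgroup.zpowers g)) := by
    have hg : g ∈ N ⊔ Subgroup.zpowers g := Subgroup.mem_sup_right (Subgroup.mem_zpowers g)
    refine Finite.of_surjective (fun i : Fin m =>
      (QuotientGroup.mk (⟨g, hg⟩ ^ (i : ℕ)) : ↥(N ⊔ Subgroup.zpowers g) ⧸
        (N ⊔ Subgroup.zpowers (g ^ m)).subgroupOf (N ⊔ Subgroup.zpowers g))) ?_
    intro q
    induction q using QuotientGroup.induction_on with
    | H x =>
      obtain ⟨n, hn, b, ⟨k, rfl⟩, hx⟩ := mem_sup_normal.1 x.2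
      have hm' : (m : ℤ) ≠ 0 := by exact_mod_cast hm.ne'
      have h1 : 0 ≤ k % m := Int.emod_nonneg k hm'
      have h2 : k % m < m := Int.emod_lt_of_pos k (by exact_mod_cast hm)
      refine ⟨⟨(k % m).toNat, by omega⟩, ?_⟩
      rw [QuotientGroup.eq, Subgroup.mem_subgroupOf]
      have h3 : (((⟨g, hg⟩ ^ ((⟨(k % m).toNat, by omega⟩ : Fin m) : ℕ))⁻¹ * x :
          ↥(N ⊔ Subgroup.zpowers g)) : G) = (g ^ (k % m))⁻¹ * (n * g ^ k) := by
        have h4 : (x : G) = n * g ^ k := hx.symm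
        show (g ^ (k % m).toNat)⁻¹ * (x : G) = _
        rw [h4, ← zpow_natCast, Int.toNat_of_nonneg h1]
      rw [h3]
      have h5 : (g ^ (k % m))⁻¹ * (n * g ^ k) =
          ((g ^ (k % m))⁻¹ * n * (g ^ (k % m))⁻¹⁻¹) * (g ^ m) ^ (k / m) := by
        have h6 : g ^ k = g ^ (k % m) * (g ^ m) ^ (k / m) := by
          rw [← zpow_natCast g m, ← zpow_mul, ← zpow_add]
          congr 1
          exact (Int.emod_add_mul_ediv k m).symm
        rw [h6]
        group
      rw [h5]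
      exact Subgroup.mul_mem _ (Subgroup.mem_sup_left (hN.conj_mem n hn _))
        (Subgroup.mem_sup_right (Subgroup.zpow_mem _ (Subgroup.mem_zpowers _) _))
  exact Subgroup.finiteIndex_of_finite_quotient

section

variable {G V : Type} [Group G] {Λ : SimpleGraph V} {N : Subgroup G} {A : V → Subgroup G}

/-- every element of a graph product lies in a finite subproduct -/
theorem exists_finite (h : IsGraphProd Λ N A) {T : Set G} (hT : T.Finite) (hTN : T ⊆ N) :
    ∃ F : Set V, F.Finite ∧ T ⊆ Ps A F := by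
  have hmono : ∀ F F' : Set V, F ⊆ F' → Ps A F ≤ Ps A F' := fun F F' hF =>
    iSup_le fun u => A_le_Ps (hF u.2)
  have h1 : ∀ x ∈ N, ∃ F : Set V, F.Finite ∧ x ∈ Ps A F := by
    let P : Subgroup G :=
      { carrier := {x | ∃ F : Set V, F.Finite ∧ x ∈ Ps A F}
        one_mem' := ⟨∅, Set.finite_empty, one_mem _⟩
        mul_mem' := by
          rintro x y ⟨F, hF, hx⟩ ⟨F', hF', hy⟩
          exact ⟨F ∪ F', hF.union hF', mul_mem (hmono _ _ Set.subset_union_left hx)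
            (hmono _ _ Set.subset_union_right hy)⟩
        inv_mem' := by
          rintro x ⟨F, hF, hx⟩
          exact ⟨F, hF, inv_mem hx⟩ }
    have h2 : N ≤ P := by
      rw [← h.sup]
      refine iSup_le fun v a ha => ?_
      exact ⟨{v}, Set.finite_singleton v, A_le_Ps (Set.mem_singleton v) ha⟩
    exact fun x hx => h2 hx
  choose! Fx hFx hxF using h1
  refine ⟨⋃ x ∈ T, Fx x, hT.biUnion fun x hx => hFx x (hTN hx), ?_⟩
  intro x hx
  exact hmono _ _ (Set.subset_biUnion_of_mem hx) (hxF x (hTN hx))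

/-- the cyclic case -/
theorem cyc_case (hC : ClosedE C) (hF : FbC C) (h : IsGraphProd Λ N A) [hN : N.Normal] (g : G)
    (hgen : N ⊔ Subgroup.zpowers g = ⊤) (hp : ∀ v, ∃ w, CC N g (A v) (A w))
    (hpow : ∀ v, ∃ k : ℕ, 0 < k ∧ CC N (g ^ k) (A v) (A v)) (hmt : ∀ v, Mt C (A v))
    (T : Set G) (hT : T.Finite) (hTN : T ⊆ N) :
    ∃ K : Subgroup G, ∃ _ : K.Normal, C (G ⧸ K) ∧ ∀ x ∈ Subgroup.closure T, x ∈ K → x = 1 := by
  obtain ⟨F0, hF0, hTF⟩ := exists_finite h hT hTN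
  -- images under all powers
  have hpn : ∀ (k : ℕ) (v : V), ∃ w, CC N (g ^ k) (A v) (A w) := by
    intro k
    induction k with
    | zero =>
      intro v
      exact ⟨v, by rw [pow_zero]; exact CC.of_mem N.one_mem _⟩
    | succ k ih =>
      intro v
      obtain ⟨w, hw⟩ := ih v
      obtain ⟨w', hw'⟩ := hp w
      exact ⟨w', by rw [pow_succ']; exact hw.trans hw'⟩
  have hred : ∀ (v w : V) (k₀ : ℕ) (_ : 0 < k₀) (_ : CC N (g ^ k₀) (A v) (A v)) (k : ℤ),
      CC N (g ^ k) (A v) (A w) ↔ CC N (g ^ ((k % k₀).toNat)) (A v) (A w) := by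
    intro v w k₀ hk₀ hv k
    have hk₀' : (k₀ : ℤ) ≠ 0 := by exact_mod_cast hk₀.ne'
    have h1 : 0 ≤ k % k₀ := Int.emod_nonneg k hk₀'
    have h2 : g ^ k = g ^ ((k % k₀).toNat) * (g ^ k₀) ^ (k / k₀) := by
      rw [← zpow_natCast g ((k % k₀).toNat), Int.toNat_of_nonneg h1, ← zpow_natCast g k₀,
        ← zpow_mul, ← zpow_add]
      congr 1
      exact (Int.emod_add_mul_ediv k k₀).symm
    constructor
    · intro h3
      have h4 := (hv.zpow (-(k / k₀))).trans h3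
      have h5 : g ^ k * (g ^ k₀) ^ (-(k / k₀)) = g ^ ((k % k₀).toNat) := by
        rw [h2]
        group
      rwa [h5] at h4
    · intro h3
      rw [h2]
      exact (hv.zpow (k / k₀)).trans h3
  have hpz : ∀ (k : ℤ) (v : V), ∃ w, CC N (g ^ k) (A v) (A w) := by
    intro k v
    obtain ⟨k₀, hk₀, hv⟩ := hpow v
    obtain ⟨w, hw⟩ := hpn (k % k₀).toNat v
    exact ⟨w, (hred v w k₀ hk₀ hv k).2 hw⟩
  obtain ⟨F, hFdef⟩ : ∃ F : Set V, F = {w | A w ≠ ⊥ ∧ ∃ u ∈ F0, ∃ k : ℤ, CC N (g ^ k) (A u) (A w)} :=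
    ⟨_, rfl⟩
  have hFfin : F.Finite := by
    have h1 : F ⊆ ⋃ u ∈ F0, {w | A w ≠ ⊥ ∧ ∃ k : ℤ, CC N (g ^ k) (A u) (A w)} := by
      intro w hw
      rw [hFdef] at hw
      obtain ⟨h1, u, hu, k, hk⟩ := hw
      exact Set.mem_biUnion hu ⟨h1, k, hk⟩
    refine (hF0.biUnion fun u _ => ?_).subset h1
    obtain ⟨k₀, hk₀, hv⟩ := hpow u
    have h2 : {w | A w ≠ ⊥ ∧ ∃ k : ℤ, CC N (g ^ k) (A u) (A w)} ⊆
        ⋃ r ∈ Finset.range k₀, {w | A w ≠ ⊥ ∧ CC N (g ^ r) (A u) (A w)} := by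
      rintro w ⟨hw, k, hk⟩
      have hk₀' : (k₀ : ℤ) ≠ 0 := by exact_mod_cast hk₀.ne'
      have h3 : 0 ≤ k % k₀ := Int.emod_nonneg k hk₀'
      have h4 : k % k₀ < k₀ := Int.emod_lt_of_pos k (by exact_mod_cast hk₀)
      rw [Set.mem_iUnion₂]
      exact ⟨(k % k₀).toNat, Finset.mem_range.2 (by omega), hw, (hred u w k₀ hk₀ hv k).1 hk⟩
    refine ((Finset.range k₀).finite_toSet.biUnion fun r _ => ?_).subset h2
    apply Set.Subsingleton.finite
    rintro w ⟨hw, hw'⟩ w' ⟨_, hw''⟩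
    exact hw'.unique h hw'' hw
  have hF0F : Ps A F0 ≤ Ps A F := by
    refine iSup_le fun u => ?_
    by_cases hu : A u.1 = ⊥
    · rw [hu]
      exact bot_le
    · refine A_le_Ps ?_
      rw [hFdef]
      exact ⟨hu, u.1, u.2, 0, by rw [zpow_zero]; exact CC.of_mem N.one_mem _⟩
  obtain ⟨K, hK⟩ : ∃ K : Subgroup G, K = Ncs N A F := ⟨_, rfl⟩
  have hKN : K ≤ N := hK ▸ Ncs_le h F
  have hKn : K.Normal := by
    refine ⟨fun y hy x => ?_⟩
    have h1 : Ncs N A F ≤ (Ncs N A F).comap (MulAut.conj x).toMonoidHom := by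
      conv_lhs => rw [Ncs]
      rw [Subgroup.closure_le]
      rintro _ ⟨m, hm, u, hu, a, ha, rfl⟩
      show x * (m * a * m⁻¹) * x⁻¹ ∈ Ncs N A F
      obtain ⟨n, hn, b, ⟨k, rfl⟩, hx⟩ := mem_sup_normal.1
        (show x ∈ N ⊔ Subgroup.zpowers g from hgen ▸ Subgroup.mem_top x)
      obtain ⟨w, hw⟩ := hpz k u
      by_cases hwF : w ∈ F
      · exfalso
        apply hu
        rw [hFdef] at hwF ⊢
        obtain ⟨h1, u0, hu0, k', hk'⟩ := hwF
        refine ⟨fun h2 => h1 (hw.bot h2), u0, hu0, -k + k', ?_⟩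
        rw [zpow_add, zpow_neg]
        exact hk'.trans hw.symm
      · have h2 : CC N (x * m) (A u) (A w) := by
          have h3 := ((CC.of_mem hm (A u)).trans hw).trans (CC.of_mem hn (A w))
          have h4 : n * (g ^ k * m) = x * m := by
            rw [← hx]
            group
          rwa [h4] at h3
        obtain ⟨n', hn', h5⟩ := h2
        have h6 := A_le_Ncs (N := N) hwF ((h5 a).1 ha)
        have h7 := Ncs_conj (N.inv_mem hn') h6
        have h8 : n'⁻¹ * (n' * (x * m * a * (x * m)⁻¹) * n'⁻¹) * n'⁻¹⁻¹ =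
            x * (m * a * m⁻¹) * x⁻¹ := by group
        rwa [h8] at h7
    rw [hK] at hy ⊢
    exact h1 hy
  refine ⟨K, hKn, ?_, ?_⟩
  · -- the power
    obtain ⟨m, hm, hmF⟩ : ∃ m : ℕ, 0 < m ∧ ∀ u ∈ F, CC N (g ^ m) (A u) (A u) := by
      choose k hk hk' using hpow
      refine ⟨∏ u ∈ hFfin.toFinset, k u, Finset.prod_pos fun u _ => hk u, fun u hu => ?_⟩
      obtain ⟨r, hr⟩ := Finset.dvd_prod_of_mem k (hFfin.mem_toFinset.2 hu)
      rw [hr, pow_mul]
      exact (hk' u).pow r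
    obtain ⟨H, hH⟩ : ∃ H : Subgroup G, H = N ⊔ Subgroup.zpowers (g ^ m) := ⟨_, rfl⟩
    have hNH : N ≤ H := by
      rw [hH]
      exact le_sup_left
    have hHfi : H.index ≠ 0 := by
      have h1 := (fi_rel N g hm).index_ne_zero
      rw [hgen, ← hH] at h1
      have h2 : (H.subgroupOf ⊤).index = H.index := Subgroup.relIndex_top_right H
      rwa [h2] at h1
    have hcc : ∀ x ∈ H, ∀ u ∈ F, CC N x (A u) (A u) := by
      intro x hx u hu
      rw [hH] at hx
      obtain ⟨n, hn, b, ⟨k, rfl⟩, rfl⟩ := mem_sup_normal.1 hx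
      exact ((hmF u hu).zpow k).trans (CC.of_mem hn _)
    have hGN : C (G ⧸ N) := by
      obtain ⟨q, hq⟩ : ∃ q : G ⧸ N, q = QuotientGroup.mk' N g := ⟨_, rfl⟩
      have h1 : Subgroup.zpowers q = ⊤ := by
        rw [hq, ← MonoidHom.map_zpowers, eq_top_iff]
        intro y _
        obtain ⟨x, rfl⟩ := QuotientGroup.mk'_surjective N y
        obtain ⟨n, hn, b, hb, hx⟩ := mem_sup_normal.1
          (show x ∈ N ⊔ Subgroup.zpowers g from hgen ▸ Subgroup.mem_top x)
        refine ⟨b, hb, ?_⟩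
        rw [← hx, map_mul, show QuotientGroup.mk' N n = 1 from (QuotientGroup.eq_one_iff _).2 hn,
          one_mul]
      exact C_equiv hC.base ((Subgroup.topEquiv.symm).trans (MulEquiv.subgroupCongr h1.symm))
        (C_cyc hC.base q)
    have hNHn : (N.subgroupOf H).Normal := hN.subgroupOf H
    have hKHn : (K.subgroupOf H).Normal := hKn.subgroupOf H
    have hKH : K.subgroupOf H = Ncs (N.subgroupOf H) (fun v => (A v).subgroupOf H) F := by
      apply Subgroup.map_injective H.subtype_injective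
      rw [Subgroup.map_subgroupOf_eq_of_le (hKN.trans hNH), hK, Ncs, Ncs, MonoidHom.map_closure]
      congr 1
      ext x
      constructor
      · rintro ⟨n, hn, u, hu, a, ha, rfl⟩
        exact ⟨⟨n, hNH hn⟩ * ⟨a, hNH (h.le u ha)⟩ * (⟨n, hNH hn⟩)⁻¹,
          ⟨⟨n, hNH hn⟩, hn, u, hu, ⟨a, hNH (h.le u ha)⟩, ha, rfl⟩, rfl⟩
      · rintro ⟨_, ⟨n, hn, u, hu, a, ha, rfl⟩, rfl⟩
        exact ⟨n, hn, u, hu, a, ha, rfl⟩
    have h1 : C (H ⧸ K.subgroupOf H) := by
      refine C_quotS hC hF (h.subgroupOf H hNH) ?_ F hFfin (K.subgroupOf H) hKH ?_ ?_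
      · apply Pool.Agent.R941.FJ.quot hC.base
        exact hC.base.of_injective _ _ (H.map (QuotientGroup.mk' N)).subtype
          (Subgroup.subtype_injective _) hGN
      · intro v hv x
        obtain ⟨n, hn, h2⟩ := hcc x x.2 v hv
        exact ⟨⟨n, hNH hn⟩, hn, fun y => h2 y⟩
      · intro v hv x hx
        have h2 : ∀ y, y ∈ A v ↔ (x : G) * y * (x : G)⁻¹ ∈ A v := by
          intro y
          constructor
          · intro hy
            exact (hx ⟨y, hNH (h.le v hy)⟩).1 hy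
          · intro hy
            have h3 : y ∈ H := by
              have h4 := H.mul_mem (H.mul_mem (H.inv_mem x.2) (hNH (h.le v hy))) x.2
              have h5 : (x : G)⁻¹ * ((x : G) * y * (x : G)⁻¹) * x = y := by group
              rwa [h5] at h4
            exact (hx ⟨y, h3⟩).2 hy
        have h3 := hmt v x h2
        have h4 : (A v).subgroupOf H ⊔ Subgroup.zpowers x ≤
            (A v ⊔ Subgroup.zpowers (x : G)).comap H.subtype := by
          refine sup_le ?_ ?_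
          · intro y hy
            exact Subgroup.mem_sup_left hy
          · rw [Subgroup.zpowers_le]
            exact Subgroup.mem_sup_right (Subgroup.mem_zpowers _)
        refine hC.base.of_injective _ ↥(A v ⊔ Subgroup.zpowers (x : G))
          ((H.subtype.comp ((A v).subgroupOf H ⊔ Subgroup.zpowers x).subtype).codRestrict _
            fun y => h4 y.2) ?_ h3
        intro a b hab
        exact Subtype.ext (Subtype.ext
          (congrArg (fun z : ↥(A v ⊔ Subgroup.zpowers (x : G)) => (z : G)) hab))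
    have h2 : C (H.map (QuotientGroup.mk' K)) := by
      have h3 : ((QuotientGroup.mk' K).subgroupMap H).ker = K.subgroupOf H := by
        ext x
        rw [MonoidHom.mem_ker, Subgroup.mem_subgroupOf, ← QuotientGroup.eq_one_iff]
        exact ⟨fun h => congrArg Subtype.val h, fun h => Subtype.ext h⟩
      exact C_equiv hC.base ((QuotientGroup.quotientKerEquivOfSurjective _
        ((QuotientGroup.mk' K).subgroupMap_surjective H)).symm.trans
          (QuotientGroup.quotientMulEquivOfEq h3)) h1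
    refine hC.base.finiteIndex _ (H.map (QuotientGroup.mk' K)) ⟨?_⟩ h2
    intro h3
    have h4 := Subgroup.index_map_dvd H (QuotientGroup.mk'_surjective K)
    rw [h3] at h4
    exact hHfi (Nat.eq_zero_of_zero_dvd h4)
  · intro x hx hxK
    have h1 : Subgroup.closure T ≤ Ps A F := by
      rw [Subgroup.closure_le]
      exact fun y hy => hF0F (hTF hy)
    exact disjS h F (h1 hx) (hK ▸ hxK)

end

end Pool.Agent.K7.H29.GP
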