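import Pool.Agent.K7.H29.GP.Fin

/-!
# Graph products of finitely many finite groups as kernels
-/

set_option autoImplicit false

namespace Pool.Agent.K7.H29.GP

open Pool.Agent.Y110.FJ Pool.Agent.R684.FP
open Pool.Agent.R941.FJ (C_equiv C_le C_cyc mem_sup_normal)

variable {C : ∀ (G : Type) [Group G], Prop}

section

variable {G V : Type} [Group G] {Λ : SimpleGraph V} {N : Subgroup G} {A : V → Subgroup G}

/-- a power of `g` is compatible with the projections -/
theorem exists_pow [Finite V] [hA : ∀ v, Finite (A v)] (h : IsGraphProd Λ N A) [hN : N.Normal]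
    (g : G) : ∃ k : ℕ, 0 < k ∧ ∀ (w : V) (F : N →* A w), IsPr N A w F → ∀ x : N,
      F (MulAut.conjNormal (g ^ k) x) = F x := by
  choose π hπ using fun w => exists_pr h w
  have hfin : Finite (N →* ∀ w, A w) := by
    refine Finite.of_injective (β := ∀ v, A v → ∀ w, A w)
      (fun F v a => F ⟨a, h.le v a.2⟩) ?_
    intro F F' hF
    apply hom_ext h
    intro v a ha hn
    exact congrFun (congrFun hF v) ⟨a, ha⟩
  obtain ⟨i, j, hij, hf⟩ := Finite.exists_ne_map_eq_of_infinite (fun k : ℕ =>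
    (MonoidHom.pi π).comp (MulAut.conjNormal (H := N) (g ^ k)).toMonoidHom)
  wlog hlt : i < j generalizing i j
  · exact this j i hij.symm hf.symm (lt_of_le_of_ne (not_lt.1 hlt) hij.symm)
  refine ⟨j - i, Nat.sub_pos_of_lt hlt, ?_⟩
  intro w F hF x
  have hFw : F = π w := by
    apply hom_ext h
    intro v a ha hn
    by_cases hv : v = w
    · subst hv
      rw [hF.1 a ha, (hπ v).1 a ha]
    · rw [hF.2 v hv a ha, (hπ w).2 v hv a ha]
  rw [hFw]
  have h1 := DFunLike.congr_fun hf ((MulAut.conjNormal (g ^ i))⁻¹ x)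
  have h2 := congrFun h1 w
  have h3 : π w (MulAut.conjNormal (g ^ i) ((MulAut.conjNormal (g ^ i))⁻¹ x)) =
    π w (MulAut.conjNormal (g ^ j) ((MulAut.conjNormal (g ^ i))⁻¹ x)) := h2
  rw [MulAut.apply_inv_self] at h3
  rw [h3]
  congr 1
  rw [← MulAut.mul_apply, ← map_inv, ← map_mul]
  congr 2
  have h4 : g ^ j = g ^ (j - i) * g ^ i := by
    rw [← pow_add, Nat.sub_add_cancel hlt.le]
  rw [h4, mul_inv_cancel_right]

/-- torsion elements with the projections of an element of `A v` lie in the normal closure -/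
theorem mem_Ncl_of [Finite V] (h : IsGraphProd Λ N A) (v : V) {b : N} (hb : IsOfFinOrder b)
    (hpr : ∀ w, w ≠ v → ∀ F : N →* A w, IsPr N A w F → F b = 1) : (b : G) ∈ Ncl N (A v) := by
  obtain ⟨r, hr1, hr2⟩ := exists_ret (h.semi v)
  have hsub : IsGraphProd (Λ.comap (Subtype.val : {u // u ∈ {u | u ≠ v}} → V)) (Up A v)
      (fun u => A u.1) := h.sub {u | u ≠ v}
  have hry : r b = 1 := by
    refine tf_ker _ le_rfl hsub (r b) ?_ ?_
    · obtain ⟨m, hm, h1⟩ := isOfFinOrder_iff_pow_eq_one.1 hb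
      exact isOfFinOrder_iff_pow_eq_one.2 ⟨m, hm, by rw [← map_pow, h1, map_one]⟩
    · intro w F hFw
      have h1 : IsPr N A w.1 (F.comp r) := by
        refine ⟨?_, ?_⟩
        · intro a ha hn
          have haU : a ∈ Up A v := A_le_Ps (S := {u | u ≠ v}) w.2 ha
          show F (r ⟨a, hn⟩) = _
          rw [hr1 a haU]
          exact hFw.1 a ha haU
        · intro u hu a ha hn
          show F (r ⟨a, hn⟩) = 1
          by_cases huv : u = v
          · subst huv
            rw [hr2 a ha, map_one]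
          · have haU : a ∈ Up A v := A_le_Ps (S := {u | u ≠ v}) huv ha
            rw [hr1 a haU]
            exact hFw.2 ⟨u, huv⟩ (fun h => hu (congrArg Subtype.val h)) a ha haU
      exact hpr w.1 w.2 (F.comp r) h1
  obtain ⟨m, hm, u, hu, hmu⟩ := dcp' (h.semi v) b.2
  have hu1 : u = 1 := by
    have h1 : b = (⟨m, Ncl_le (h.semi v) hm⟩ : N) * ⟨u, le_N (h.semi v) hu⟩ := Subtype.ext hmu
    rw [h1, map_mul, ret_Ncl hr2 (h.semi v) hm, one_mul, hr1 u hu] at hry
    exact congrArg Subtype.val hry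
  rw [hu1, mul_one] at hmu
  rw [hmu]
  exact hm

/-- a power of every element preserves the classes -/
theorem pow_class [Finite V] [hA : ∀ v, Finite (A v)] (h : IsGraphProd Λ N A) [hN : N.Normal]
    (g : G) : ∃ k : ℕ, 0 < k ∧ ∀ v, CC N (g ^ k) (A v) (A v) := by
  obtain ⟨k, hk, hF⟩ := exists_pow h g
  refine ⟨k, hk, fun v => ?_⟩
  by_cases hbot : A v = ⊥
  · refine ⟨1, N.one_mem, fun x => ?_⟩
    rw [hbot, Subgroup.mem_bot, Subgroup.mem_bot]
    constructor
    · rintro rfl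
      group
    · intro h1
      have h2 : x = (g ^ k)⁻¹ * (1 * (g ^ k * x * (g ^ k)⁻¹) * 1⁻¹) * g ^ k := by group
      rw [h2, h1]
      group
  obtain ⟨J, hJ⟩ : ∃ J, J = Monoid.CoprodI.lift
    (fun x => (Cj (Up A v) (Lk Λ A v) (A v) x).subtype) := ⟨_, rfl⟩
  have hJinj : Function.Injective J := by
    rw [hJ]
    exact (freeProd (h.semi v)).inj
  have hJr : J.range = Ncl N (A v) := by
    rw [hJ, Monoid.CoprodI.range_eq_iSup, ← sup_Cj (h.semi v)]
    congr 1
    funext x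
    exact Subgroup.range_subtype _
  obtain ⟨B, hB⟩ : ∃ B : Subgroup G, B = (A v).map (MulAut.conj (g ^ k)).toMonoidHom := ⟨_, rfl⟩
  have hBfin : (B : Set G).Finite := by
    rw [hB, Subgroup.coe_map]
    exact (Set.toFinite (A v : Set G)).image _
  have hBN : B ≤ Ncl N (A v) := by
    rw [hB]
    rintro _ ⟨a, ha, rfl⟩
    have hav : a ∈ N := h.le v ha
    have h1 : ((MulAut.conjNormal (g ^ k) (⟨a, hav⟩ : N) : N) : G) =
        (MulAut.conj (g ^ k)).toMonoidHom a := MulAut.conjNormal_apply _ _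
    rw [← h1]
    refine mem_Ncl_of h v ?_ ?_
    · have h2 : IsOfFinOrder (⟨a, ha⟩ : A v) := isOfFinOrder_of_finite _
      obtain ⟨m, hm, h3⟩ := isOfFinOrder_iff_pow_eq_one.1 h2
      refine isOfFinOrder_iff_pow_eq_one.2 ⟨m, hm, ?_⟩
      rw [← map_pow]
      have h5 : a ^ m = 1 := congrArg Subtype.val h3
      have h4 : (⟨a, hav⟩ : N) ^ m = 1 := Subtype.ext h5
      rw [h4, map_one]
    · intro w hw F hFw
      rw [hF w F hFw, hFw.2 v (Ne.symm hw) a ha]
  have hB1 : (B.comap J) ≠ ⊥ := by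
    intro h1
    apply hbot
    have h2 : B = ⊥ := by
      rw [eq_bot_iff]
      intro b hb
      have h3 := hBN hb
      rw [← hJr] at h3
      obtain ⟨z, rfl⟩ := h3
      have h4 : z ∈ B.comap J := hb
      rw [h1, Subgroup.mem_bot] at h4
      rw [h4, map_one]
      exact one_mem _
    rw [hB, Subgroup.map_eq_bot_iff_of_injective _ (MulAut.conj (g ^ k)).injective] at h2
    exact h2
  have hBf : ((B.comap J : Subgroup (Monoid.CoprodI
      (fun x => Cj (Up A v) (Lk Λ A v) (A v) x))) :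
      Set (Monoid.CoprodI (fun x => Cj (Up A v) (Lk Λ A v) (A v) x))).Finite := by
    rw [Subgroup.coe_comap]
    exact hBfin.preimage hJinj.injOn
  obtain ⟨x, c, hxc⟩ := fin_sub (B.comap J) hBf hB1
  have hcN : J c ∈ N := by
    have h1 : J c ∈ J.range := ⟨c, rfl⟩
    rw [hJr] at h1
    exact Ncl_le (h.semi v) h1
  -- `B` is contained in a conjugate
  obtain ⟨n, hn, hnB⟩ : ∃ n ∈ N, ∀ b ∈ B, n * b * n⁻¹ ∈ A v := by
    induction x using QuotientGroup.induction_on with
    | H w =>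
      refine ⟨(w : G)⁻¹ * (J c)⁻¹, N.mul_mem (N.inv_mem (le_N (h.semi v) w.2)) (N.inv_mem hcN),
        fun b hb => ?_⟩
      have h3 := hBN hb
      rw [← hJr] at h3
      obtain ⟨z, rfl⟩ := h3
      obtain ⟨m, hm⟩ := hxc z hb
      have h4 : J (Monoid.CoprodI.of (M := fun x => Cj (Up A v) (Lk Λ A v) (A v) x) m) = (m : G) := by
        rw [hJ, Monoid.CoprodI.lift_of]
        rfl
      have h5 := (mem_Cj (h.semi v) w m).1 m.2
      have h6 : (w : G)⁻¹ * (J c)⁻¹ * J z * ((w : G)⁻¹ * (J c)⁻¹)⁻¹ = (w : G)⁻¹ * m * w := by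
        rw [hm, map_mul, map_mul, map_inv]
        have h7 : J (Monoid.CoprodI.of m) = (m : G) := h4
        rw [h7]
        group
      rw [h6]
      exact h5
  refine ⟨n, hn, ?_⟩
  have hmaps : ∀ x ∈ A v, n * (g ^ k * x * (g ^ k)⁻¹) * n⁻¹ ∈ A v := by
    intro x hx
    apply hnB
    rw [hB]
    exact ⟨x, hx, rfl⟩
  let φ : A v → A v := fun x => ⟨n * (g ^ k * x * (g ^ k)⁻¹) * n⁻¹, hmaps x x.2⟩
  have hφ : Function.Injective φ := by
    intro x y hxy
    have h1 : n * (g ^ k * x * (g ^ k)⁻¹) * n⁻¹ = n * (g ^ k * y * (g ^ k)⁻¹) * n⁻¹ :=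
      congrArg Subtype.val hxy
    apply Subtype.ext
    have h2 : ∀ z : G, z = (n * g ^ k)⁻¹ * (n * (g ^ k * z * (g ^ k)⁻¹) * n⁻¹) * (n * g ^ k) := by
      intro z
      group
    rw [h2 x, h1, ← h2 y]
  have hφs := Finite.surjective_of_injective hφ
  intro x
  refine ⟨hmaps x, fun hx => ?_⟩
  obtain ⟨y, hy⟩ := hφs ⟨_, hx⟩
  have h1 : n * (g ^ k * y * (g ^ k)⁻¹) * n⁻¹ = n * (g ^ k * x * (g ^ k)⁻¹) * n⁻¹ :=
    congrArg Subtype.val hy
  have h2 : ∀ z : G, z = (n * g ^ k)⁻¹ * (n * (g ^ k * z * (g ^ k)⁻¹) * n⁻¹) * (n * g ^ k) := by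
    intro z
    group
  rw [h2 x, ← h1, ← h2 y]
  exact y.2

end

/-- finite-by-cyclic groups -/
theorem C_fin_cyc (hC : ClosedE C) {G : Type} [Group G] {A : Subgroup G} [Finite A] {g : G}
    (hg : ∀ x, x ∈ A ↔ g * x * g⁻¹ ∈ A) : C ↥(A ⊔ Subgroup.zpowers g) := by
  let c : A ≃ A :=
    { toFun := fun x => ⟨g * x * g⁻¹, (hg x).1 x.2⟩
      invFun := fun x => ⟨g⁻¹ * x * g, by
        rw [hg]
        have h1 : g * (g⁻¹ * x * g) * g⁻¹ = x := by group
        rw [h1]
        exact x.2⟩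
      left_inv := fun x => Subtype.ext (by
        show g⁻¹ * (g * x * g⁻¹) * g = x
        group)
      right_inv := fun x => Subtype.ext (by
        show g * (g⁻¹ * x * g) * g⁻¹ = x
        group) }
  refine cyc_real hC A g hg (MulAction.toPermHom A A) ?_ c ?_
    (Pool.Agent.Y430.SS.of_finite hC.base _ inferInstance)
  · exact MulAction.toPerm_injective
  · intro x y hxy
    ext z : 1
    show y * z = c (x * c.symm z)
    obtain ⟨t, rfl⟩ := c.surjective z
    rw [Equiv.symm_apply_apply]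
    apply Subtype.ext
    show (y : G) * (g * t * g⁻¹) = g * (x * t : G) * g⁻¹
    rw [hxy]
    group

/-- **kernels which are graph products of finitely many finite groups** -/
theorem fin_ext (hC : ClosedE C) (hF : FbC C) {G V : Type} [Group G] [Finite V]
    {Λ : SimpleGraph V} {N : Subgroup G} {A : V → Subgroup G} [hA : ∀ v, Finite (A v)]
    (h : IsGraphProd Λ N A) [hN : N.Normal] (hQ : C (G ⧸ N)) : C G := by
  refine gp_ext hC hF h hQ ?_ fun v g hg => C_fin_cyc hC hg
  intro g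
  obtain ⟨k, hk, h1⟩ := pow_class h g
  exact ⟨k, hk, fun v => ⟨⟨v, h1 v⟩, 1, one_pos, by rw [mul_one]; exact h1 v⟩⟩

end Pool.Agent.K7.H29.GP
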