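import Pool.Agent.K7.H29.GP.Am

/-!
# Extensions whose kernel is a graph product
-/

set_option autoImplicit false

namespace Pool.Agent.K7.H29.GP

open Pool.Agent.Y110.FJ Pool.Agent.R684.FP
open Pool.Agent.R941.FJ (C_equiv C_le C_cyc mem_sup_normal)

/-- `N` is the graph product of its subgroups `A v` over the graph `Λ`: the subgroups generate `N`, the
subgroups of adjacent vertices commute, and `N` has the universal property -/
structure IsGraphProd {G V : Type} [Group G] (Λ : SimpleGraph V) (N : Subgroup G)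
    (A : V → Subgroup G) : Prop where
  sup : ⨆ v, A v = N
  comm : ∀ u v, Λ.Adj u v → ∀ a ∈ A u, ∀ b ∈ A v, a * b = b * a
  univ : ∀ (W : Type) [Group W] (f : ∀ v, A v →* W),
    (∀ u v, Λ.Adj u v → ∀ (a : A u) (b : A v), f u a * f v b = f v b * f u a) →
    ∃ F : N →* W, ∀ (v : V) (a : G) (ha : a ∈ A v) (hn : a ∈ N), F ⟨a, hn⟩ = f v ⟨a, ha⟩

section

variable {G V : Type} [Group G] {Λ : SimpleGraph V} {N : Subgroup G} {A : V → Subgroup G}

variable (A) in
/-- the subgroup generated by the vertex groups of the other vertices -/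
abbrev Up (v : V) : Subgroup G := ⨆ u : {u // u ≠ v}, A u.1

variable (Λ A) in
/-- the subgroup generated by the vertex groups of the neighbours -/
abbrev Lk (v : V) : Subgroup G := ⨆ u : {u // Λ.Adj v u}, A u.1

theorem Lk_comm (h : IsGraphProd Λ N A) (v : V) {l a : G} (hl : l ∈ Lk Λ A v) (ha : a ∈ A v) :
    l * a * l⁻¹ = a := by
  have h1 : Lk Λ A v ≤ Subgroup.centralizer {a} := by
    refine iSup_le fun u x hx => ?_
    rw [Subgroup.mem_centralizer_singleton_iff]
    exact (h.comm v u.1 u.2 a ha x hx).symm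
  have h2 := h1 hl
  rw [Subgroup.mem_centralizer_singleton_iff] at h2
  rw [h2]
  group

theorem IsGraphProd.le (h : IsGraphProd Λ N A) (v : V) : A v ≤ N := by
  rw [← h.sup]
  exact le_iSup A v

theorem IsGraphProd.semi (h : IsGraphProd Λ N A) (v : V) :
    SemiAm N (Up A v) (Lk Λ A v) (A v) where
  le := iSup_le fun u => le_iSup (fun u : {u // u ≠ v} => A u.1) ⟨u.1, u.2.ne'⟩
  nrm := fun l hl a ha => by
    rw [Lk_comm h v hl ha]
    exact ha
  sup := by
    have h1 : Up A v ≤ ⨆ u, A u := iSup_le fun u => le_iSup A u.1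
    have h2 : A v ≤ ⨆ u, A u := le_iSup A v
    have h3 : (⨆ u, A u) ≤ Up A v ⊔ A v := by
      refine iSup_le fun u => ?_
      by_cases hu : u = v
      · subst hu
        exact le_sup_right
      · exact le_sup_of_le_left (le_iSup (fun u : {u // u ≠ v} => A u.1) ⟨u, hu⟩)
    rw [← h.sup]
    exact le_antisymm (sup_le h1 h2) h3
  univ := by
    intro W _ f k hfk
    have hU : ∀ (u : V) (hu : u ≠ v), A u ≤ Up A v := fun u hu =>
      le_iSup (fun u : {u // u ≠ v} => A u.1) ⟨u, hu⟩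
    have hex : ∀ u, ∃ g : A u →* W,
        (u = v → ∀ (a : G) (ha : a ∈ A u) (ha' : a ∈ A v), g ⟨a, ha⟩ = k ⟨a, ha'⟩) ∧
        (u ≠ v → ∀ (a : G) (ha : a ∈ A u) (ha' : a ∈ Up A v), g ⟨a, ha⟩ = f ⟨a, ha'⟩) := by
      intro u
      by_cases hu : u = v
      · subst hu
        exact ⟨k, fun _ a ha ha' => rfl, fun h => absurd rfl h⟩
      · exact ⟨f.comp (Subgroup.inclusion (hU u hu)), fun h => absurd h hu,
          fun _ a ha ha' => rfl⟩
    choose g hg1' hg2' using hex
    have hg1 : ∀ (a : G) (ha : a ∈ A v), g v ⟨a, ha⟩ = k ⟨a, ha⟩ := fun a ha =>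
      hg1' v rfl a ha ha
    have hg2 : ∀ (u : V) (hu : u ≠ v) (a : G) (ha : a ∈ A u) (ha' : a ∈ Up A v),
        g u ⟨a, ha⟩ = f ⟨a, ha'⟩ := fun u hu a ha ha' => hg2' u hu a ha ha'
    have hc1 : ∀ u, Λ.Adj v u → ∀ (a : G) (ha : a ∈ A v) (b : G) (hb : b ∈ A u),
        g v ⟨a, ha⟩ * g u ⟨b, hb⟩ = g u ⟨b, hb⟩ * g v ⟨a, ha⟩ := by
      intro u hu a ha b hb
      rw [hg1 a ha, hg2 u hu.ne' b hb (hU u hu.ne' hb)]
      have hbl : b ∈ Lk Λ A v := (le_iSup (fun u : {u // Λ.Adj v u} => A u.1) ⟨u, hu⟩) hb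
      have h1 := hfk b hbl a ha
      have h2 : (⟨b * a * b⁻¹, (fun l hl a ha => by
          rw [Lk_comm h v hl ha]
          exact ha : ∀ l ∈ Lk Λ A v, ∀ a ∈ A v, l * a * l⁻¹ ∈ A v) b hbl a ha⟩ : A v) =
          ⟨a, ha⟩ := Subtype.ext (Lk_comm h v hbl ha)
      have h3 : k ⟨a, ha⟩ = f ⟨b, hU u hu.ne' hb⟩ * k ⟨a, ha⟩ * (f ⟨b, hU u hu.ne' hb⟩)⁻¹ := by
        rw [← h1]
        exact congrArg k h2.symm
      exact eq_mul_inv_iff_mul_eq.1 h3
    obtain ⟨F, hF⟩ := h.univ W g (by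
      intro u w huw a b
      by_cases hu : u = v
      · subst hu
        exact hc1 w huw a a.2 b b.2
      · by_cases hw : w = v
        · subst hw
          exact (hc1 u huw.symm b b.2 a a.2).symm
        · have e1 := hg2 u hu a a.2 (hU u hu a.2)
          have e2 := hg2 w hw b b.2 (hU w hw b.2)
          change g u ⟨a, a.2⟩ * g w ⟨b, b.2⟩ = g w ⟨b, b.2⟩ * g u ⟨a, a.2⟩
          rw [e1, e2, ← map_mul, ← map_mul]
          congr 1
          exact Subtype.ext (h.comm u w huw a a.2 b b.2))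
    refine ⟨F, ?_, fun a ha hn => (hF v a ha hn).trans (hg1 a ha)⟩
    intro u hu hn
    have hUN : Up A v ≤ N := iSup_le fun u => h.le u.1
    have key : F.comp (Subgroup.inclusion hUN) = f := by
      have h1 : ∀ x : Up A v, x ∈ (F.comp (Subgroup.inclusion hUN)).eqLocus f := by
        rintro ⟨x, hx⟩
        have h2 : Up A v ≤ ((F.comp (Subgroup.inclusion hUN)).eqLocus f).map (Up A v).subtype := by
          refine iSup_le fun w y hy => ?_
          refine ⟨⟨y, hU w.1 w.2 hy⟩, ?_, rfl⟩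
          show F ⟨y, _⟩ = f ⟨y, _⟩
          rw [hF w.1 y hy, hg2 w.1 w.2 y hy (hU w.1 w.2 hy)]
        obtain ⟨y, hy, hyx⟩ := h2 hx
        have h3 : y = ⟨x, hx⟩ := Subtype.ext hyx
        rw [← h3]
        exact hy
      ext x
      exact h1 x
    exact DFunLike.congr_fun key ⟨u, hu⟩

/-- the quotient by the normal closure of a vertex group -/
theorem IsGraphProd.quot (h : IsGraphProd Λ N A) (v : V) (M : Subgroup G) [M.Normal]
    (hM : M = Ncl N (A v)) :
    IsGraphProd (Λ.comap (Subtype.val : {u // u ≠ v} → V)) (N.map (QuotientGroup.mk' M))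
      (fun u => (A u.1).map (QuotientGroup.mk' M)) where
  sup := by
    have h1 : (A v).map (QuotientGroup.mk' M) = ⊥ := by
      rw [Subgroup.map_eq_bot_iff, QuotientGroup.ker_mk', hM]
      exact A_le_Ncl
    rw [← (h.semi v).sup, Subgroup.map_sup, h1, sup_bot_eq, Subgroup.map_iSup]
  comm := by
    rintro u w huw _ ⟨a, ha, rfl⟩ _ ⟨b, hb, rfl⟩
    rw [← map_mul, ← map_mul, h.comm u.1 w.1 huw a ha b hb]
  univ := by
    classical
    intro W _ f hf
    obtain ⟨F, hF1, hF2⟩ : ∃ F : N →* W,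
        (∀ (u : V) (hu : u ≠ v) (a : G) (ha : a ∈ A u) (hn : a ∈ N),
          F ⟨a, hn⟩ = f ⟨u, hu⟩ ⟨QuotientGroup.mk' M a, ⟨a, ha, rfl⟩⟩) ∧
        (∀ (a : G) (_ : a ∈ A v) (hn : a ∈ N), F ⟨a, hn⟩ = 1) := by
      have hex : ∀ u, ∃ g : A u →* W, (u = v → ∀ a, g a = 1) ∧
          (∀ (hu : u ≠ v) (a : A u), g a = f ⟨u, hu⟩ ⟨QuotientGroup.mk' M a, ⟨a, a.2, rfl⟩⟩) := by
        intro u
        by_cases hu : u = v
        · exact ⟨1, fun _ a => rfl, fun h => absurd hu h⟩
        · exact ⟨(f ⟨u, hu⟩).comp ((QuotientGroup.mk' M).subgroupMap (A u)),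
            fun h => absurd h hu, fun _ a => rfl⟩
      choose g hg1' hg2 using hex
      have hg1 : ∀ (a : A v), g v a = 1 := hg1' v rfl
      obtain ⟨F, hF⟩ := h.univ W g (by
        intro u w huw a b
        by_cases hu : u = v
        · subst hu
          rw [hg1, one_mul, mul_one]
        · by_cases hw : w = v
          · subst hw
            rw [hg1, one_mul, mul_one]
          · rw [hg2 u hu, hg2 w hw]
            exact hf ⟨u, hu⟩ ⟨w, hw⟩ huw _ _)
      refine ⟨F, ?_, ?_⟩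
      · intro u hu a ha hn
        rw [hF u a ha hn, hg2 u hu]
      · intro a ha hn
        rw [hF v a ha hn, hg1]
    have hsur : Function.Surjective ((QuotientGroup.mk' M).subgroupMap N) :=
      (QuotientGroup.mk' M).subgroupMap_surjective N
    have hker : ((QuotientGroup.mk' M).subgroupMap N).ker ≤ F.ker := by
      rintro ⟨x, hx⟩ h1
      rw [MonoidHom.mem_ker] at h1 ⊢
      have h2 : QuotientGroup.mk' M x = 1 := congrArg Subtype.val h1
      have h3 : x ∈ M := (QuotientGroup.eq_one_iff _).1 h2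
      rw [hM] at h3
      have h4 : Ncl N (A v) ≤ (F.ker).map N.subtype := by
        rw [Ncl, Subgroup.closure_le]
        rintro _ ⟨n, hn, a, ha, rfl⟩
        refine ⟨⟨n, hn⟩ * ⟨a, h.le v ha⟩ * (⟨n, hn⟩)⁻¹, ?_, rfl⟩
        rw [SetLike.mem_coe, MonoidHom.mem_ker, map_mul, map_mul, map_inv, hF2 a ha, mul_one,
          mul_inv_cancel]
      obtain ⟨y, hy, hyx⟩ := h4 h3
      have h5 : y = ⟨x, hx⟩ := Subtype.ext hyx
      rw [← h5]
      exact hy
    refine ⟨((QuotientGroup.mk' M).subgroupMap N).liftOfSurjective hsur ⟨F, hker⟩, ?_⟩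
    rintro u _ ⟨a, ha, rfl⟩ hn
    have h6 := MonoidHom.liftOfRightInverse_comp_apply ((QuotientGroup.mk' M).subgroupMap N)
      (Function.surjInv hsur) (Function.rightInverse_surjInv hsur) ⟨F, hker⟩ ⟨a, h.le u.1 ha⟩
    have h7 : (⟨QuotientGroup.mk' M a, hn⟩ : N.map (QuotientGroup.mk' M)) =
        (QuotientGroup.mk' M).subgroupMap N ⟨a, h.le u.1 ha⟩ := rfl
    rw [h7]
    refine h6.trans ?_
    exact hF1 u.1 u.2 a ha _

end

end Pool.Agent.K7.H29.GP
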