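import Pool.Agent.K7.H29.GP.Ext

/-!
# Extensions whose kernel is a graph product: the general theorem
-/

set_option autoImplicit false

namespace Pool.Agent.K7.H29.GP

open Pool.Agent.Y110.FJ Pool.Agent.R684.FP
open Pool.Agent.R941.FJ (C_equiv C_le C_cyc mem_sup_normal)

variable {C : ∀ (G : Type) [Group G], Prop}

section

variable {G V : Type} [Group G] {Λ : SimpleGraph V} {N : Subgroup G} {A : V → Subgroup G}

/-- conjugation by `g` is realized -/
theorem real_gen (hC : ClosedE C) (hF : FbC C) (h : IsGraphProd Λ N A) [hN : N.Normal] (g : G)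
    (hp : ∀ v, ∃ w, CC N g (A v) (A w))
    (hpow : ∀ v, ∃ k : ℕ, 0 < k ∧ CC N (g ^ k) (A v) (A v)) (hmt : ∀ v, Mt C (A v))
    (E : Set G) (hE : E.Finite) (hEN : E ⊆ N) : Realized C g E := by
  obtain ⟨H, hH⟩ : ∃ H : Subgroup G, H = N ⊔ Subgroup.zpowers g := ⟨_, rfl⟩
  have hNH : N ≤ H := by
    rw [hH]
    exact le_sup_left
  have hgH : g ∈ H := by
    rw [hH]
    exact Subgroup.mem_sup_right (Subgroup.mem_zpowers g)
  have hNHn : (N.subgroupOf H).Normal := hN.subgroupOf H
  have hgen : N.subgroupOf H ⊔ Subgroup.zpowers (⟨g, hgH⟩ : H) = ⊤ := by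
    apply Subgroup.map_injective H.subtype_injective
    rw [Subgroup.map_sup, Subgroup.map_subgroupOf_eq_of_le hNH, MonoidHom.map_zpowers,
      ← MonoidHom.range_eq_map, Subgroup.range_subtype]
    exact hH.symm
  have hconj : ∀ x ∈ E, g * x * g⁻¹ ∈ N := fun x hx => hN.conj_mem x (hEN hx) g
  have hcc : ∀ (k : ℕ) (u w : V), CC N (g ^ k) (A u) (A w) →
      CC (N.subgroupOf H) ((⟨g, hgH⟩ : H) ^ k) ((A u).subgroupOf H) ((A w).subgroupOf H) := by
    rintro k u w ⟨n, hn, hx⟩
    exact ⟨⟨n, hNH hn⟩, hn, fun y => hx y⟩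
  have hT : (H.subtype ⁻¹' (E ∪ (fun x => g * x * g⁻¹) '' E)).Finite :=
    (hE.union (hE.image _)).preimage H.subtype_injective.injOn
  obtain ⟨K, hKn, hCK, hKT⟩ := cyc_case hC hF (h.subgroupOf H hNH) ⟨g, hgH⟩ hgen (by
      intro v
      obtain ⟨w, hw⟩ := hp v
      refine ⟨w, ?_⟩
      have h1 := hcc 1 v w (by rwa [pow_one])
      rwa [pow_one] at h1) (by
      intro v
      obtain ⟨k, hk, hk'⟩ := hpow v
      exact ⟨k, hk, hcc k v v hk'⟩) (by
      intro v x hx
      have h2 : ∀ y, y ∈ A v ↔ (x : G) * y * (x : G)⁻¹ ∈ A v := by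
        intro y
        constructor
        · intro hy
          exact (hx ⟨y, hNH (h.le v hy)⟩).1 hy
        · intro hy
          have h3 : y ∈ H := by
            have h4 := H.mul_mem (H.mul_mem (H.inv_mem x.2) (hNH (h.le v hy))) x.2
            have h5 : (x : G)⁻¹ * ((x : G) * y * (x : G)⁻¹) * x = y := by group
            rwa [h5] at h4
          exact (hx ⟨y, h3⟩).2 hy
      have h3 := hmt v x h2
      have h4 : (A v).subgroupOf H ⊔ Subgroup.zpowers x ≤
          (A v ⊔ Subgroup.zpowers (x : G)).comap H.subtype := by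
        refine sup_le ?_ ?_
        · intro y hy
          exact Subgroup.mem_sup_left hy
        · rw [Subgroup.zpowers_le]
          exact Subgroup.mem_sup_right (Subgroup.mem_zpowers _)
      refine hC.base.of_injective _ ↥(A v ⊔ Subgroup.zpowers (x : G))
        ((H.subtype.comp ((A v).subgroupOf H ⊔ Subgroup.zpowers x).subtype).codRestrict _
          fun y => h4 y.2) ?_ h3
      intro a b hab
      exact Subtype.ext (Subtype.ext
        (congrArg (fun z : ↥(A v ⊔ Subgroup.zpowers (x : G)) => (z : G)) hab)))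
    (H.subtype ⁻¹' (E ∪ (fun x => g * x * g⁻¹) '' E)) hT (by
      rintro x (hx | ⟨y, hy, hyx⟩)
      · exact hEN hx
      · show (x : G) ∈ N
        have h1 := hconj y hy
        have h2 : g * y * g⁻¹ = (x : G) := hyx
        rwa [h2] at h1)
  have hcl : Subgroup.closure (E ∪ (fun x => g * x * g⁻¹) '' E) ≤ H := by
    rw [Subgroup.closure_le]
    rintro x (hx | ⟨y, hy, rfl⟩)
    · exact hNH (hEN hx)
    · exact hNH (hconj y hy)
  refine ⟨H ⧸ K, inferInstance, (QuotientGroup.mk' K).comp (Subgroup.inclusion hcl),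
    QuotientGroup.mk' K ⟨g, hgH⟩, hCK, ?_, ?_⟩
  · rw [injective_iff_map_eq_one]
    rintro ⟨x, hx⟩ hx1
    have h1 : (⟨x, hcl hx⟩ : H) ∈ K := (QuotientGroup.eq_one_iff _).1 hx1
    have h2 : (⟨x, hcl hx⟩ : H) ∈ Subgroup.closure
        (H.subtype ⁻¹' (E ∪ (fun x => g * x * g⁻¹) '' E)) := by
      have h3 : Subgroup.closure (E ∪ (fun x => g * x * g⁻¹) '' E) ≤
          (Subgroup.closure (H.subtype ⁻¹' (E ∪ (fun x => g * x * g⁻¹) '' E))).map H.subtype := by
        rw [Subgroup.closure_le]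
        intro y hy
        exact ⟨⟨y, hcl (Subgroup.subset_closure hy)⟩, Subgroup.subset_closure hy, rfl⟩
      obtain ⟨y, hy, hyx⟩ := h3 hx
      have h4 : y = ⟨x, hcl hx⟩ := Subtype.ext hyx
      rw [← h4]
      exact hy
    have h3 := hKT _ h2 h1
    exact Subtype.ext (congrArg (fun z : H => (z : G)) h3)
  · intro x y _ hy
    show QuotientGroup.mk' K (Subgroup.inclusion hcl y) = QuotientGroup.mk' K ⟨g, hgH⟩ *
      QuotientGroup.mk' K (Subgroup.inclusion hcl x) * (QuotientGroup.mk' K ⟨g, hgH⟩)⁻¹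
    rw [← map_inv, ← map_mul, ← map_mul]
    congr 1
    exact Subtype.ext hy

/-- **extensions whose kernel is a graph product** -/
theorem gp_ext (hC : ClosedE C) (hF : FbC C) (h : IsGraphProd Λ N A) [hN : N.Normal]
    (hQ : C (G ⧸ N))
    (hcc : ∀ g : G, ∃ m : ℕ, 0 < m ∧ ∀ v, (∃ w, CC N (g ^ m) (A v) (A w)) ∧
      ∃ k : ℕ, 0 < k ∧ CC N (g ^ (m * k)) (A v) (A v))
    (hmt : ∀ v, Mt C (A v)) : C G := by
  have hCN : C N := by
    have key : ∀ E : Set G, E.Finite → E ⊆ N → C ↥(Subgroup.closure E) := by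
      intro E hE hEN
      obtain ⟨P, _, f, p, hCP, hf, -⟩ := real_gen hC hF h 1
        (fun v => ⟨v, CC.of_mem N.one_mem _⟩)
        (fun v => ⟨1, one_pos, by rw [pow_one]; exact CC.of_mem N.one_mem _⟩) hmt E hE hEN
      refine hC.base.of_injective _ P (f.comp (Subgroup.inclusion
        (Subgroup.closure_mono Set.subset_union_left))) ?_ hCP
      exact hf.comp (Subgroup.inclusion_injective _)
    refine Pool.Agent.Y430.SS.of_directed hC.base N (Finset N) (fun i j => ?_)
      (fun s => Subgroup.closure (s : Set N))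
      (fun s t h => Subgroup.closure_mono (by exact_mod_cast h))
      (fun g => ⟨{g}, Subgroup.subset_closure (by simp)⟩) (fun s => ?_)
    · classical
      exact ⟨i ∪ j, Finset.subset_union_left, Finset.subset_union_right⟩
    · have h1 : (Subgroup.closure (s : Set N)).map N.subtype =
          Subgroup.closure (N.subtype '' (s : Set N)) := MonoidHom.map_closure _ _
      refine C_equiv hC.base ((Subgroup.closure (s : Set N)).equivMapOfInjective N.subtype
        N.subtype_injective) ?_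
      rw [h1]
      refine key _ (s.finite_toSet.image _) ?_
      rintro _ ⟨x, _, rfl⟩
      exact x.2
  refine Pool.Agent.Y529.FJ.t_ext C hC G N hCN hQ fun g hg => ?_
  obtain ⟨m, hm, hmv⟩ := hcc g
  have h1 : C ↥(N ⊔ Subgroup.zpowers (g ^ m)) := by
    refine Pool.Agent.R779.FJ.t_col (Pool.Agent.Y961.FJ.t_perm Pool.Agent.Y529.FJ.t_ext) C hC G N
      (g ^ m) ?_ ?_
    · intro n hn
      rw [← pow_mul]
      exact hg _ (Nat.mul_pos hm hn)
    · intro E hE hEN
      refine real_gen hC hF h (g ^ m) (fun v => (hmv v).1) (fun v => ?_) hmt E hE hEN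
      obtain ⟨k, hk, hk'⟩ := (hmv v).2
      exact ⟨k, hk, by rwa [← pow_mul]⟩
  have hle : N ⊔ Subgroup.zpowers (g ^ m) ≤ N ⊔ Subgroup.zpowers g := by
    refine sup_le le_sup_left ?_
    rw [Subgroup.zpowers_le]
    exact Subgroup.mem_sup_right (Subgroup.pow_mem _ (Subgroup.mem_zpowers g) m)
  refine hC.base.finiteIndex _ ((N ⊔ Subgroup.zpowers (g ^ m)).subgroupOf
    (N ⊔ Subgroup.zpowers g)) (fi_rel N g hm) ?_
  exact C_equiv hC.base (Subgroup.subgroupOfEquivOfLe hle) h1

end

end Pool.Agent.K7.H29.GP
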