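import Pool.Agent.K7.H29.GP.Gp

/-!
# Extensions whose kernel is a graph product: finitely many vertices
-/

set_option autoImplicit false

namespace Pool.Agent.K7.H29.GP

open Pool.Agent.Y110.FJ Pool.Agent.R684.FP
open Pool.Agent.R941.FJ (C_equiv C_le C_cyc mem_sup_normal)

variable {C : ∀ (G : Type) [Group G], Prop}

section

variable {G V : Type} [Group G] {Λ : SimpleGraph V} {N : Subgroup G} {A : V → Subgroup G}

/-- every element preserves the `N`-conjugacy class of `A` -/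
def Cls (N A : Subgroup G) : Prop :=
  ∀ g : G, ∃ n ∈ N, ∀ x, x ∈ A ↔ n * (g * x * g⁻¹) * n⁻¹ ∈ A

theorem Cls.normal {N A : Subgroup G} [N.Normal] (h : Cls N A) : (Ncl N A).Normal := by
  refine ⟨fun x hx g => ?_⟩
  have h1 : Ncl N A ≤ (Ncl N A).comap (MulAut.conj g).toMonoidHom := by
    conv_lhs => rw [Ncl]
    rw [Subgroup.closure_le]
    rintro _ ⟨n, hn, a, ha, rfl⟩
    show g * (n * a * n⁻¹) * g⁻¹ ∈ Ncl N A
    obtain ⟨m, hm, hx⟩ := h (g * n)
    have h2 := A_le_Ncl (N := N) ((hx a).1 ha)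
    have h3 := Ncl_conj (N.inv_mem hm) h2
    have h4 : m⁻¹ * (m * (g * n * a * (g * n)⁻¹) * m⁻¹) * m⁻¹⁻¹ = g * (n * a * n⁻¹) * g⁻¹ := by
      group
    rwa [h4] at h3
  exact h1 hx

/-- the class of the image of a subgroup -/
theorem Cls.map {N A : Subgroup G} {H : Type} [Group H] (φ : G →* H) (hφ : Function.Surjective φ)
    (h : Cls N A) : Cls (N.map φ) (A.map φ) := by
  intro g'
  obtain ⟨g, rfl⟩ := hφ g'
  obtain ⟨n, hn, hx⟩ := h g
  refine ⟨φ n, ⟨n, hn, rfl⟩, fun x' => ⟨?_, ?_⟩⟩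
  · rintro ⟨x, hx1, rfl⟩
    exact ⟨_, (hx x).1 hx1, by simp⟩
  · rintro ⟨y, hy, hyx⟩
    refine ⟨(n * g)⁻¹ * y * (n * g), ?_, ?_⟩
    · show (n * g)⁻¹ * y * (n * g) ∈ A
      rw [hx]
      have h1 : n * (g * ((n * g)⁻¹ * y * (n * g)) * g⁻¹) * n⁻¹ = y := by group
      rw [h1]
      exact hy
    · rw [map_mul, map_mul, hyx, map_inv, map_mul]
      group

/-- `A ⟨g⟩` is in the class for every `g` which normalizes `A` -/
def Mt (C : ∀ (G : Type) [Group G], Prop) (A : Subgroup G) : Prop :=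
  ∀ g : G, (∀ x, x ∈ A ↔ g * x * g⁻¹ ∈ A) → C ↥(A ⊔ Subgroup.zpowers g)

/-- the image of a subgroup whose class need not be invariant: `g` maps it to a conjugate -/
theorem Mt.map_gen (hC : ClosedE C) {M N U A : Subgroup G} [M.Normal]
    (hdcp : ∀ n ∈ N, ∃ m ∈ M, ∃ u ∈ U, n = m * u) (hdisj : ∀ x ∈ U, x ∈ M → x = 1)
    (hAU : A ≤ U) (hcl : Cls N A) (h : Mt C A) :
    Mt C (A.map (QuotientGroup.mk' M)) := by
  intro g' hg'
  obtain ⟨g, rfl⟩ := QuotientGroup.mk'_surjective M g'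
  obtain ⟨n, hn, hx⟩ := hcl g
  -- the image of `n` normalizes the image of `A`
  have hg1 : ∀ x, x ∈ A ↔ (n * g) * x * (n * g)⁻¹ ∈ A := by
    intro x
    rw [hx]
    have h1 : n * (g * x * g⁻¹) * n⁻¹ = (n * g) * x * (n * g)⁻¹ := by group
    rw [h1]
  obtain ⟨m, hm, u, hu, rfl⟩ := hdcp n hn
  -- `u` normalizes `A`
  have hlift : ∀ x ∈ U, QuotientGroup.mk' M x ∈ A.map (QuotientGroup.mk' M) → x ∈ A := by
    rintro x hx1 ⟨y, hy, hyx⟩
    have h1 : y⁻¹ * x ∈ M := by
      have h2 : QuotientGroup.mk' M (y⁻¹ * x) = 1 := by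
        rw [map_mul, map_inv, hyx, inv_mul_cancel]
      exact (QuotientGroup.eq_one_iff _).1 h2
    have h3 := hdisj _ (U.mul_mem (U.inv_mem (hAU hy)) hx1) h1
    have h4 : x = y := (inv_mul_eq_one.1 h3).symm
    rw [h4]
    exact hy
  have hmu : QuotientGroup.mk' M (m * u) = QuotientGroup.mk' M u := by
    rw [map_mul]
    have h1 : QuotientGroup.mk' M m = 1 := (QuotientGroup.eq_one_iff _).2 hm
    rw [h1, one_mul]
  have hmap : ∀ z : G, (∀ x, x ∈ A ↔ z * x * z⁻¹ ∈ A) → ∀ x', x' ∈ A.map (QuotientGroup.mk' M) ↔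
      QuotientGroup.mk' M z * x' * (QuotientGroup.mk' M z)⁻¹ ∈ A.map (QuotientGroup.mk' M) := by
    intro z hz x'
    constructor
    · rintro ⟨x, hx1, rfl⟩
      exact ⟨z * x * z⁻¹, (hz x).1 hx1, by simp⟩
    · rintro ⟨y, hy, hyx⟩
      refine ⟨z⁻¹ * y * z, ?_, ?_⟩
      · show z⁻¹ * y * z ∈ A
        rw [hz]
        have h1 : z * (z⁻¹ * y * z) * z⁻¹ = y := by group
        rw [h1]
        exact hy
      · rw [map_mul, map_mul, hyx, map_inv]
        group
  have hu' : ∀ x', x' ∈ A.map (QuotientGroup.mk' M) ↔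
      QuotientGroup.mk' M u * x' * (QuotientGroup.mk' M u)⁻¹ ∈ A.map (QuotientGroup.mk' M) := by
    intro x'
    have h1 := hmap _ hg1 ((QuotientGroup.mk' M g)⁻¹ * x' * QuotientGroup.mk' M g)
    have h2 := hg' ((QuotientGroup.mk' M g)⁻¹ * x' * QuotientGroup.mk' M g)
    rw [map_mul, hmu] at h1
    have h3 : QuotientGroup.mk' M g * ((QuotientGroup.mk' M g)⁻¹ * x' * QuotientGroup.mk' M g) *
        (QuotientGroup.mk' M g)⁻¹ = x' := by group
    rw [h3] at h2
    have h4 : QuotientGroup.mk' M u * QuotientGroup.mk' M g *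
        ((QuotientGroup.mk' M g)⁻¹ * x' * QuotientGroup.mk' M g) *
        (QuotientGroup.mk' M u * QuotientGroup.mk' M g)⁻¹ =
        QuotientGroup.mk' M u * x' * (QuotientGroup.mk' M u)⁻¹ := by group
    rw [h4] at h1
    rw [← h2]
    exact h1
  have hu1 : ∀ x, x ∈ A ↔ u * x * u⁻¹ ∈ A := by
    intro x
    constructor
    · intro hx1
      apply hlift _ (U.mul_mem (U.mul_mem hu (hAU hx1)) (U.inv_mem hu))
      have h1 := (hu' (QuotientGroup.mk' M x)).1 ⟨x, hx1, rfl⟩
      simpa using h1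
    · intro hx1
      have h0 : x ∈ U := by
        have h1 := U.mul_mem (U.mul_mem (U.inv_mem hu) (hAU hx1)) hu
        have h2 : u⁻¹ * (u * x * u⁻¹) * u = x := by group
        rwa [h2] at h1
      apply hlift _ h0
      rw [hu']
      exact ⟨_, hx1, by simp⟩
  -- the element
  obtain ⟨z, hz⟩ : ∃ z, z = u⁻¹ * (m * u * g) := ⟨_, rfl⟩
  have hz1 : ∀ x, x ∈ A ↔ z * x * z⁻¹ ∈ A := by
    intro x
    rw [hg1 x, hu1 (z * x * z⁻¹), hz]
    have h1 : u * (u⁻¹ * (m * u * g) * x * (u⁻¹ * (m * u * g))⁻¹) * u⁻¹ =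
      (m * u * g) * x * (m * u * g)⁻¹ := by group
    rw [h1]
  have hzg : QuotientGroup.mk' M z = QuotientGroup.mk' M g := by
    rw [hz, map_mul, map_mul, hmu, map_inv]
    group
  have hCz := h z hz1
  -- the realization
  have hinj : Function.Injective ((QuotientGroup.mk' M).subgroupMap A) := by
    rw [injective_iff_map_eq_one]
    rintro ⟨x, hx1⟩ hx2
    have h1 : QuotientGroup.mk' M x = 1 := congrArg Subtype.val hx2
    exact Subtype.ext (hdisj x (hAU hx1) ((QuotientGroup.eq_one_iff _).1 h1))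
  let e : A ≃* A.map (QuotientGroup.mk' M) := MulEquiv.ofBijective
    ((QuotientGroup.mk' M).subgroupMap A) ⟨hinj, (QuotientGroup.mk' M).subgroupMap_surjective A⟩
  have he : ∀ a : A, ((e a : A.map (QuotientGroup.mk' M)) : G ⧸ M) = QuotientGroup.mk' M a :=
    fun a => rfl
  refine cyc_real hC (A.map (QuotientGroup.mk' M)) (QuotientGroup.mk' M g) hg'
    ((Subgroup.inclusion (le_sup_left : A ≤ A ⊔ Subgroup.zpowers z)).comp e.symm.toMonoidHom) ?_
    ⟨z, Subgroup.mem_sup_right (Subgroup.mem_zpowers z)⟩ ?_ hCz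
  · exact (Subgroup.inclusion_injective (le_sup_left : A ≤ A ⊔ Subgroup.zpowers z)).comp
      e.symm.injective
  · intro x y hxy
    obtain ⟨a, rfl⟩ := e.surjective x
    obtain ⟨b, rfl⟩ := e.surjective y
    rw [he, he] at hxy
    apply Subtype.ext
    show ((e.symm (e b) : A) : G) = z * ((e.symm (e a) : A) : G) * z⁻¹
    rw [e.symm_apply_apply, e.symm_apply_apply]
    have h1 : QuotientGroup.mk' M (b : G) = QuotientGroup.mk' M (z * a * z⁻¹) := by
      rw [hxy, map_mul, map_mul, map_inv, hzg]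
    have h2 : (z * a * z⁻¹) ∈ A := (hz1 a).1 a.2
    have h3 : (⟨(b : G), b.2⟩ : A) = ⟨z * a * z⁻¹, h2⟩ := hinj (Subtype.ext h1)
    exact congrArg Subtype.val h3

theorem Mt.map (hC : ClosedE C) {M N U L B A : Subgroup G} [M.Normal] (hs : SemiAm N U L B)
    (hM : M = Ncl N B) (hAU : A ≤ U) (hcl : Cls N A) (h : Mt C A) :
    Mt C (A.map (QuotientGroup.mk' M)) := by
  subst hM
  exact h.map_gen hC (fun n hn => dcp' hs hn) (fun x hxU hxM => U_inf hs hxU hxM) hAU hcl

end

/-- **pure extensions with a graph product over a finite graph as kernel** -/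
theorem pure_ext (hC : ClosedE C) (hF : FbC C) (n : ℕ) :
    ∀ {G V : Type} [Group G] [Finite V], Nat.card V ≤ n → ∀ {Λ : SimpleGraph V} {N : Subgroup G}
      {A : V → Subgroup G} [N.Normal], IsGraphProd Λ N A → C (G ⧸ N) →
      (∀ v, Cls N (A v)) → (∀ v, Mt C (A v)) → C G := by
  induction n with
  | zero =>
    intro G V _ _ hn Λ N A _ h hQ hcl hmt
    have hV : IsEmpty V := by
      have h1 : Nat.card V = 0 := Nat.le_zero.1 hn
      rcases Nat.card_eq_zero.1 h1 with h2 | h2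
      · exact h2
      · exact absurd h2 (not_infinite_iff_finite.2 inferInstance)
    have h1 : N = ⊥ := by
      rw [← h.sup]
      exact iSup_of_empty A
    subst h1
    exact C_equiv hC.base QuotientGroup.quotientBot.symm hQ
  | succ n ih =>
    intro G V _ _ hn Λ N A _ h hQ hcl hmt
    by_cases hV : IsEmpty V
    · have h1 : N = ⊥ := by
        rw [← h.sup]
        exact iSup_of_empty A
      subst h1
      exact C_equiv hC.base QuotientGroup.quotientBot.symm hQ
    · rw [not_isEmpty_iff] at hV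
      obtain ⟨v⟩ := hV
      have hMn : (Ncl N (A v)).Normal := (hcl v).normal
      have hlt : Nat.card {u // u ≠ v} < Nat.card V := Finite.card_subtype_lt (x := v) (by simp)
      have hle : Ncl N (A v) ≤ N := Ncl_le (h.semi v)
      have hNn : (N.map (QuotientGroup.mk' (Ncl N (A v)))).Normal :=
        Subgroup.Normal.map inferInstance _ (QuotientGroup.mk'_surjective _)
      refine step hC hF (h.semi v) ?_ (Or.inr ⟨hcl v, hmt v⟩)
      refine ih (by omega) (h.quot v (Ncl N (A v)) rfl) ?_ ?_ ?_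
      · exact C_equiv hC.base (QuotientGroup.quotientQuotientEquivQuotient (Ncl N (A v)) N hle) hQ
      · intro u
        exact (hcl u.1).map _ (QuotientGroup.mk'_surjective _)
      · intro u
        exact Mt.map hC (h.semi v) rfl
          (le_iSup (fun u : {u // u ≠ v} => A u.1) u) (hcl u.1) (hmt u.1)

end Pool.Agent.K7.H29.GP
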