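import Pool.Agent.K7.H29.GP.Pure

/-!
# Retractions of graph products, subgroups and quotients
-/

set_option autoImplicit false

namespace Pool.Agent.K7.H29.GP

open Pool.Agent.Y110.FJ Pool.Agent.R684.FP
open Pool.Agent.R941.FJ (C_equiv C_le C_cyc mem_sup_normal)

variable {C : ∀ (G : Type) [Group G], Prop}

section

variable {G V : Type} [Group G] {Λ : SimpleGraph V} {N : Subgroup G} {A : V → Subgroup G}

variable (N A) in
/-- the normal closure in `N` of the vertex groups of the vertices outside `S` -/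
def Ncs (S : Set V) : Subgroup G :=
  Subgroup.closure {x | ∃ n ∈ N, ∃ u, u ∉ S ∧ ∃ a ∈ A u, x = n * a * n⁻¹}

variable (A) in
/-- the subgroup generated by the vertex groups of the vertices in `S` -/
def Ps (S : Set V) : Subgroup G := ⨆ u : {u // u ∈ S}, A u.1

theorem Ps_le (h : IsGraphProd Λ N A) (S : Set V) : Ps A S ≤ N := iSup_le fun u => h.le u.1

theorem A_le_Ps {S : Set V} {u : V} (hu : u ∈ S) : A u ≤ Ps A S :=
  le_iSup (fun u : {u // u ∈ S} => A u.1) ⟨u, hu⟩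

theorem Ncs_le (h : IsGraphProd Λ N A) (S : Set V) : Ncs N A S ≤ N := by
  rw [Ncs, Subgroup.closure_le]
  rintro _ ⟨n, hn, u, _, a, ha, rfl⟩
  exact N.mul_mem (N.mul_mem hn (h.le u ha)) (N.inv_mem hn)

theorem Ncs_conj {S : Set V} {n x : G} (hn : n ∈ N) (hx : x ∈ Ncs N A S) :
    n * x * n⁻¹ ∈ Ncs N A S := by
  have h1 : Ncs N A S ≤ (Ncs N A S).comap (MulAut.conj n).toMonoidHom := by
    conv_lhs => rw [Ncs]
    rw [Subgroup.closure_le]
    rintro _ ⟨m, hm, u, hu, a, ha, rfl⟩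
    show n * (m * a * m⁻¹) * n⁻¹ ∈ Ncs N A S
    exact Subgroup.subset_closure ⟨n * m, N.mul_mem hn hm, u, hu, a, ha, by group⟩
  exact h1 hx

theorem A_le_Ncs {S : Set V} {u : V} (hu : u ∉ S) : A u ≤ Ncs N A S := fun a ha =>
  Subgroup.subset_closure ⟨1, N.one_mem, u, hu, a, ha, by group⟩

/-- a homomorphism which is trivial on the vertex groups outside `S` is trivial on the kernel -/
theorem Ncs_ker (h : IsGraphProd Λ N A) {S : Set V} {W : Type} [Group W] (F : N →* W)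
    (hF : ∀ u, u ∉ S → ∀ (a : G) (_ : a ∈ A u) (hn : a ∈ N), F ⟨a, hn⟩ = 1) {x : G}
    (hx : x ∈ Ncs N A S) (hn : x ∈ N) : F ⟨x, hn⟩ = 1 := by
  have h4 : Ncs N A S ≤ (F.ker).map N.subtype := by
    rw [Ncs, Subgroup.closure_le]
    rintro _ ⟨n, hn, u, hu, a, ha, rfl⟩
    refine ⟨⟨n, hn⟩ * ⟨a, h.le u ha⟩ * (⟨n, hn⟩)⁻¹, ?_, rfl⟩
    rw [SetLike.mem_coe, MonoidHom.mem_ker, map_mul, map_mul, map_inv, hF u hu a ha, mul_one,
      mul_inv_cancel]
  obtain ⟨y, hy, hyx⟩ := h4 hx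
  have h5 : y = ⟨x, hn⟩ := Subtype.ext hyx
  rw [← h5]
  exact hy

/-- the retraction -/
theorem exists_retS (h : IsGraphProd Λ N A) (S : Set V) :
    ∃ F : N →* N, (∀ u ∈ S, ∀ (a : G) (_ : a ∈ A u) (hn : a ∈ N), F ⟨a, hn⟩ = ⟨a, hn⟩) ∧
      (∀ u, u ∉ S → ∀ (a : G) (_ : a ∈ A u) (hn : a ∈ N), F ⟨a, hn⟩ = 1) := by
  have hex : ∀ u, ∃ g : A u →* N, (u ∈ S → ∀ a : A u, g a = ⟨a, h.le u a.2⟩) ∧
      (u ∉ S → ∀ a : A u, g a = 1) := by
    intro u
    by_cases hu : u ∈ S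
    · exact ⟨Subgroup.inclusion (h.le u), fun _ a => rfl, fun h => absurd hu h⟩
    · exact ⟨1, fun h => absurd h hu, fun _ a => rfl⟩
  choose g hg1 hg2 using hex
  obtain ⟨F, hF⟩ := h.univ N g (by
    intro u w huw a b
    by_cases hu : u ∈ S
    · by_cases hw : w ∈ S
      · rw [hg1 u hu, hg1 w hw]
        exact Subtype.ext (h.comm u w huw a a.2 b b.2)
      · rw [hg2 w hw, one_mul, mul_one]
    · rw [hg2 u hu, one_mul, mul_one])
  refine ⟨F, ?_, ?_⟩
  · intro u hu a ha hn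
    rw [hF u a ha hn, hg1 u hu]
  · intro u hu a ha hn
    rw [hF u a ha hn, hg2 u hu]

theorem ret_Ps {S : Set V} (h : IsGraphProd Λ N A) {F : N →* N}
    (hF : ∀ u ∈ S, ∀ (a : G) (_ : a ∈ A u) (hn : a ∈ N), F ⟨a, hn⟩ = ⟨a, hn⟩) {x : G}
    (hx : x ∈ Ps A S) (hn : x ∈ N) : F ⟨x, hn⟩ = ⟨x, hn⟩ := by
  have h1 : Ps A S ≤ (F.eqLocus (MonoidHom.id N)).map N.subtype := by
    refine iSup_le fun u a ha => ?_
    exact ⟨⟨a, h.le u.1 ha⟩, hF u.1 u.2 a ha _, rfl⟩
  obtain ⟨y, hy, hyx⟩ := h1 hx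
  have h2 : y = ⟨x, hn⟩ := Subtype.ext hyx
  rw [← h2]
  exact hy

theorem disjS (h : IsGraphProd Λ N A) (S : Set V) {x : G} (hx : x ∈ Ps A S)
    (hx' : x ∈ Ncs N A S) : x = 1 := by
  obtain ⟨F, hF1, hF2⟩ := exists_retS h S
  have h1 := ret_Ps h hF1 hx (Ps_le h S hx)
  rw [Ncs_ker h F hF2 hx' (Ps_le h S hx)] at h1
  exact (congrArg Subtype.val h1).symm

theorem dcpS (h : IsGraphProd Λ N A) (S : Set V) {n : G} (hn : n ∈ N) :
    ∃ m ∈ Ncs N A S, ∃ u ∈ Ps A S, n = m * u := by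
  have h1 : ∀ u ∈ Ps A S, ∀ m ∈ Ncs N A S, u * m * u⁻¹ ∈ Ncs N A S := fun u hu m hm =>
    Ncs_conj (Ps_le h S hu) hm
  let P : Subgroup G :=
    { carrier := {x | ∃ m ∈ Ncs N A S, ∃ u ∈ Ps A S, x = m * u}
      one_mem' := ⟨1, one_mem _, 1, one_mem _, by group⟩
      mul_mem' := by
        rintro _ _ ⟨m, hm, u, hu, rfl⟩ ⟨m', hm', u', hu', rfl⟩
        exact ⟨m * (u * m' * u⁻¹), mul_mem hm (h1 u hu m' hm'), u * u', mul_mem hu hu', by group⟩
      inv_mem' := by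
        rintro _ ⟨m, hm, u, hu, rfl⟩
        exact ⟨u⁻¹ * m⁻¹ * u⁻¹⁻¹, h1 _ (inv_mem hu) _ (inv_mem hm), u⁻¹, inv_mem hu, by group⟩ }
  have h2 : N ≤ P := by
    rw [← h.sup]
    refine iSup_le fun v a ha => ?_
    by_cases hv : v ∈ S
    · exact ⟨1, one_mem _, a, A_le_Ps hv ha, by group⟩
    · exact ⟨a, A_le_Ncs hv ha, 1, one_mem _, by group⟩
  exact h2 hn

/-- the quotient by the normal closure of the vertex groups outside `S` -/
theorem IsGraphProd.quotS (h : IsGraphProd Λ N A) (S : Set V) (M : Subgroup G) [M.Normal]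
    (hM : M = Ncs N A S) :
    IsGraphProd (Λ.comap (Subtype.val : {u // u ∈ S} → V)) (N.map (QuotientGroup.mk' M))
      (fun u => (A u.1).map (QuotientGroup.mk' M)) where
  sup := by
    apply le_antisymm
    · exact iSup_le fun u => Subgroup.map_mono (h.le u.1)
    · rintro _ ⟨n, hn, rfl⟩
      obtain ⟨m, hm, u, hu, rfl⟩ := dcpS h S hn
      have h1 : QuotientGroup.mk' M m = 1 := (QuotientGroup.eq_one_iff _).2 (hM ▸ hm)
      rw [map_mul, h1, one_mul, ← Subgroup.map_iSup]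
      exact ⟨u, hu, rfl⟩
  comm := by
    rintro u w huw _ ⟨a, ha, rfl⟩ _ ⟨b, hb, rfl⟩
    rw [← map_mul, ← map_mul, h.comm u.1 w.1 huw a ha b hb]
  univ := by
    intro W _ f hf
    obtain ⟨F, hF1, hF2⟩ : ∃ F : N →* W,
        (∀ (u : V) (hu : u ∈ S) (a : G) (ha : a ∈ A u) (hn : a ∈ N),
          F ⟨a, hn⟩ = f ⟨u, hu⟩ ⟨QuotientGroup.mk' M a, ⟨a, ha, rfl⟩⟩) ∧
        (∀ u, u ∉ S → ∀ (a : G) (_ : a ∈ A u) (hn : a ∈ N), F ⟨a, hn⟩ = 1) := by
      have hex : ∀ u, ∃ g : A u →* W, (u ∉ S → ∀ a, g a = 1) ∧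
          (∀ (hu : u ∈ S) (a : A u), g a = f ⟨u, hu⟩ ⟨QuotientGroup.mk' M a, ⟨a, a.2, rfl⟩⟩) := by
        intro u
        by_cases hu : u ∈ S
        · exact ⟨(f ⟨u, hu⟩).comp ((QuotientGroup.mk' M).subgroupMap (A u)),
            fun h => absurd hu h, fun _ a => rfl⟩
        · exact ⟨1, fun _ a => rfl, fun h => absurd h hu⟩
      choose g hg1 hg2 using hex
      obtain ⟨F, hF⟩ := h.univ W g (by
        intro u w huw a b
        by_cases hu : u ∈ S
        · by_cases hw : w ∈ S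
          · rw [hg2 u hu, hg2 w hw]
            exact hf ⟨u, hu⟩ ⟨w, hw⟩ huw _ _
          · rw [hg1 w hw, one_mul, mul_one]
        · rw [hg1 u hu, one_mul, mul_one])
      refine ⟨F, ?_, ?_⟩
      · intro u hu a ha hn
        rw [hF u a ha hn, hg2 u hu]
      · intro u hu a ha hn
        rw [hF u a ha hn, hg1 u hu]
    have hsur : Function.Surjective ((QuotientGroup.mk' M).subgroupMap N) :=
      (QuotientGroup.mk' M).subgroupMap_surjective N
    have hker : ((QuotientGroup.mk' M).subgroupMap N).ker ≤ F.ker := by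
      rintro ⟨x, hx⟩ h1
      rw [MonoidHom.mem_ker] at h1 ⊢
      have h2 : QuotientGroup.mk' M x = 1 := congrArg Subtype.val h1
      have h3 : x ∈ M := (QuotientGroup.eq_one_iff _).1 h2
      rw [hM] at h3
      exact Ncs_ker h F hF2 h3 hx
    refine ⟨((QuotientGroup.mk' M).subgroupMap N).liftOfSurjective hsur ⟨F, hker⟩, ?_⟩
    rintro u _ ⟨a, ha, rfl⟩ hn
    have h6 := MonoidHom.liftOfRightInverse_comp_apply ((QuotientGroup.mk' M).subgroupMap N)
      (Function.surjInv hsur) (Function.rightInverse_surjInv hsur) ⟨F, hker⟩ ⟨a, h.le u.1 ha⟩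
    have h7 : (⟨QuotientGroup.mk' M a, hn⟩ : N.map (QuotientGroup.mk' M)) =
        (QuotientGroup.mk' M).subgroupMap N ⟨a, h.le u.1 ha⟩ := rfl
    rw [h7]
    refine h6.trans ?_
    exact hF1 u.1 u.2 a ha _

/-- the quotient by the kernel of the retraction to finitely many vertex groups, pure case -/
theorem C_quotS (hC : ClosedE C) (hF : FbC C) (h : IsGraphProd Λ N A) [N.Normal]
    (hQ : C (G ⧸ N)) (S : Set V) (hS : S.Finite) (M : Subgroup G) [M.Normal] (hM : M = Ncs N A S)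
    (hcl : ∀ v ∈ S, Cls N (A v)) (hmt : ∀ v ∈ S, Mt C (A v)) : C (G ⧸ M) := by
  have : Finite {u // u ∈ S} := hS
  have hle : M ≤ N := hM ▸ Ncs_le h S
  have hNn : (N.map (QuotientGroup.mk' M)).Normal :=
    Subgroup.Normal.map inferInstance _ (QuotientGroup.mk'_surjective _)
  refine pure_ext hC hF _ le_rfl (h.quotS S M hM) ?_ ?_ ?_
  · exact C_equiv hC.base (QuotientGroup.quotientQuotientEquivQuotient M N hle) hQ
  · intro u
    exact (hcl u.1 u.2).map _ (QuotientGroup.mk'_surjective _)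
  · intro u
    subst hM
    exact Mt.map_gen hC (fun n hn => dcpS h S hn) (fun x hx hx' => disjS h S hx hx')
      (A_le_Ps u.2) (hcl u.1 u.2) (hmt u.1 u.2)

/-- graph products in a subgroup -/
theorem IsGraphProd.subgroupOf (h : IsGraphProd Λ N A) (H : Subgroup G) (hH : N ≤ H) :
    IsGraphProd Λ (N.subgroupOf H) (fun v => (A v).subgroupOf H) where
  sup := by
    apply Subgroup.map_injective H.subtype_injective
    rw [Subgroup.map_iSup, Subgroup.map_subgroupOf_eq_of_le hH, ← h.sup]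
    congr 1
    funext v
    exact Subgroup.map_subgroupOf_eq_of_le ((h.le v).trans hH)
  comm := by
    intro u v huv a ha b hb
    exact Subtype.ext (h.comm u v huv a ha b hb)
  univ := by
    intro W _ f hf
    obtain ⟨F, hF⟩ := h.univ W (fun v => (f v).comp
        (Subgroup.subgroupOfEquivOfLe ((h.le v).trans hH)).symm.toMonoidHom) (by
      intro u v huv a b
      exact hf u v huv _ _)
    refine ⟨F.comp (Subgroup.subgroupOfEquivOfLe hH).toMonoidHom, ?_⟩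
    intro v a ha hn
    exact hF v a ha (by simpa [Subgroup.mem_subgroupOf] using hn)

end

end Pool.Agent.K7.H29.GP
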